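import Pool.Agent.H9.AM.Up0

/-!
# Two-rail simulation of a circuit on one slice

PROOF. Induction on `i ≤ s` for the statement: there are `P Q : Fin s → SimpleGraph (Fin n) → Prop`
such that all `P j`, `Q j` are `MonoOutside ∅`, for `j.1 < i` and all `G` with `cnt (pairs n) G = b`:
`(P j G ↔ C.fn j G) ∧ (Q j G ↔ ¬ C.fn j G)`, and some `S' ≤ S + 2 * i` has
`CompL w q S' (𝓐 ∪ {x | ∃ j : Fin s, j.1 < i ∧ (x = ⟨P j, ∅, 0⟩ ∨ x = ⟨Q j, ∅, 0⟩)})`.
`i = 0`: constants (`fun _ _ => True`). Step `i → i + 1`: keep the old functions for `j ≠ i`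
(`Function.update`, as `⟨i, _⟩ : Fin s`), and define the two new ones by the type of gate `i` of
`C` (all its inputs are `< i` by `C.ins_lt`); use `CompL.add_one` twice:
* input `u v`: if `u = v` then `P = False`, `Q = True` (disjunction/conjunction over the empty set);
  otherwise with `e = s(u, v)`: `P G ↔ e ∈ G.edgeSet` (an edge test) and
  `Q G ↔ b ≤ cnt ((pairs n).erase e) G` (the disjunction over the single line
  `thL ((pairs n).erase e) b` of `𝓐`). If `cnt (pairs n) G = b` then, as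
  `cnt (pairs n) G = cnt ((pairs n).erase e) G + (if e ∈ G.edgeSet then 1 else 0)`
  (`cnt_insert`, `Finset.insert_erase`), `Q G ↔ e ∉ G.edgeSet`.
* conjunction: `P` = conjunction of the `P j`, `Q` = disjunction of the `Q j`, `j ∈ C.ins i`.
* disjunction: `P` = disjunction of the `P j`, `Q` = conjunction of the `Q j`.
* negation of `j`: `P = Q j`, `Q = P j` (disjunctions over one line).
All new functions are monotone because the old ones, `e ∈ G.edgeSet` and `cnt` are. All lines have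
`V = ∅` and level `0`, so `Line.Below` is the second alternative and `Ok w q` only asks for
`MonoOutside ∅`.
-/

namespace Pool.Agent.H9.AM

open Finset

section

variable {n s : ℕ}

theorem Rail_and {𝓑 : Set (Line n)} (J : Finset (Fin s)) (R : Fin s → SimpleGraph (Fin n) → Prop)
    (hR : ∀ j ∈ J, (⟨R j, ∅, 0⟩ : Line n) ∈ 𝓑) :
    OverL 𝓑 (⟨fun G => ∀ j ∈ J, R j G, ∅, 0⟩ : Line n) := by
  refine Or.inr (Or.inl ⟨{x | ∃ j ∈ J, x = ⟨R j, ∅, 0⟩}, ?_, ?_, ?_⟩)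
  · rintro x ⟨j, hj, rfl⟩
    exact hR j hj
  · rintro x ⟨j, hj, rfl⟩
    exact Or.inr ⟨rfl, rfl⟩
  · intro G
    constructor
    · rintro h x ⟨j, hj, rfl⟩
      exact h j hj
    · intro h j hj
      exact h _ ⟨j, hj, rfl⟩

theorem Rail_or {𝓑 : Set (Line n)} (J : Finset (Fin s)) (R : Fin s → SimpleGraph (Fin n) → Prop)
    (hR : ∀ j ∈ J, (⟨R j, ∅, 0⟩ : Line n) ∈ 𝓑) :
    OverL 𝓑 (⟨fun G => ∃ j ∈ J, R j G, ∅, 0⟩ : Line n) := by
  refine Or.inr (Or.inr (Or.inl ⟨{x | ∃ j ∈ J, x = ⟨R j, ∅, 0⟩}, ?_, ?_, ?_⟩))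
  · rintro x ⟨j, hj, rfl⟩
    exact hR j hj
  · rintro x ⟨j, hj, rfl⟩
    exact Or.inr ⟨rfl, rfl⟩
  · intro G
    constructor
    · rintro ⟨j, hj, h⟩
      exact ⟨_, ⟨j, hj, rfl⟩, h⟩
    · rintro ⟨x, ⟨j, hj, rfl⟩, h⟩
      exact ⟨j, hj, h⟩

theorem Rail_copy {𝓑 : Set (Line n)} (f : SimpleGraph (Fin n) → Prop)
    (hf : (⟨f, ∅, 0⟩ : Line n) ∈ 𝓑) : OverL 𝓑 (⟨f, ∅, 0⟩ : Line n) := by
  refine Or.inr (Or.inr (Or.inl ⟨{⟨f, ∅, 0⟩}, ?_, ?_, ?_⟩))
  · rintro x rfl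
    exact hf
  · rintro x rfl
    exact Or.inr ⟨rfl, rfl⟩
  · intro G
    simp

theorem Rail_true {𝓑 : Set (Line n)} : OverL 𝓑 (⟨fun _ => True, ∅, 0⟩ : Line n) := by
  refine Or.inr (Or.inl ⟨∅, Set.empty_subset _, ?_, ?_⟩)
  · rintro x ⟨⟩
  · intro G
    simp

theorem Rail_ok {f : SimpleGraph (Fin n) → Prop} (hf : MonoOutside ∅ f) (w q : ℕ) :
    (⟨f, ∅, 0⟩ : Line n).Ok w q := by
  refine ⟨?_, hf, Nat.zero_le _⟩
  rw [card_empty]
  exact Nat.zero_le _

theorem Rail_gate (C : Circuit n s) {b : ℕ} {𝓐 : Set (Line n)}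
    (hth : ∀ e ∈ pairs n, thL ((pairs n).erase e) b ∈ 𝓐)
    (P Q : Fin s → SimpleGraph (Fin n) → Prop) (i0 : Fin s)
    (hm : ∀ j, MonoOutside ∅ (P j) ∧ MonoOutside ∅ (Q j))
    (hc : ∀ j : Fin s, j < i0 → ∀ G, cnt (pairs n) G = b →
      ((P j G ↔ C.fn j G) ∧ (Q j G ↔ ¬ C.fn j G)))
    {𝓑 : Set (Line n)} (hAB : 𝓐 ⊆ 𝓑)
    (hP : ∀ j : Fin s, j < i0 → (⟨P j, ∅, 0⟩ : Line n) ∈ 𝓑)
    (hQ : ∀ j : Fin s, j < i0 → (⟨Q j, ∅, 0⟩ : Line n) ∈ 𝓑) :
    ∃ p q' : SimpleGraph (Fin n) → Prop, MonoOutside ∅ p ∧ MonoOutside ∅ q' ∧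
      (∀ G, cnt (pairs n) G = b → ((p G ↔ C.fn i0 G) ∧ (q' G ↔ ¬ C.fn i0 G))) ∧
      OverL 𝓑 ⟨p, ∅, 0⟩ ∧ OverL 𝓑 ⟨q', ∅, 0⟩ := by
  classical
  rcases C.gate i0 with ⟨u, v, h⟩ | h | h | ⟨j, hj, h⟩
  · have hp : MonoOutside ∅ (fun G : SimpleGraph (Fin n) => G.Adj u v) := fun G H hGH _ hG => hGH hG
    have ho : OverL 𝓑 (⟨fun G : SimpleGraph (Fin n) => G.Adj u v, ∅, 0⟩ : Line n) :=
      Or.inl ⟨u, v, fun G => Iff.rfl⟩
    by_cases huv : u = v
    · refine ⟨fun G => G.Adj u v, fun _ => True, hp, fun _ _ _ _ h => h, ?_, ho, Rail_true⟩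
      intro G _
      refine ⟨(h G).symm, ?_⟩
      rw [h G]
      simp [huv]
    · have he : s(u, v) ∈ pairs n := by
        rw [pairs, mem_filter]
        exact ⟨mem_univ _, by rw [Sym2.mk_isDiag_iff]; exact huv⟩
      refine ⟨fun G => G.Adj u v, fun G => b ≤ cnt ((pairs n).erase s(u, v)) G, hp, ?_, ?_, ho, ?_⟩
      · intro G H hGH _ hG
        exact le_trans hG (cnt_mono hGH)
      · intro G hG
        refine ⟨(h G).symm, ?_⟩
        have h1 := cnt_insert (S := (pairs n).erase s(u, v)) (e := s(u, v)) (notMem_erase _ _) G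
        rw [insert_erase he, hG] at h1
        rw [h G]
        by_cases ha : G.Adj u v
        · rw [if_pos (show s(u, v) ∈ G.edgeSet from ha)] at h1
          constructor
          · intro h2
            omega
          · intro h2
            exact absurd ha h2
        · rw [if_neg (show s(u, v) ∉ G.edgeSet from ha), add_zero] at h1
          exact ⟨fun _ => ha, fun _ => h1.le⟩
      · exact Rail_copy _ (hAB (hth _ he))
  · refine ⟨fun G => ∀ j ∈ C.ins i0, P j G, fun G => ∃ j ∈ C.ins i0, Q j G, ?_, ?_, ?_, ?_, ?_⟩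
    · intro G H hGH hV hG j hj
      exact (hm j).1 G H hGH hV (hG j hj)
    · rintro G H hGH hV ⟨j, hj, hG⟩
      exact ⟨j, hj, (hm j).2 G H hGH hV hG⟩
    · intro G hG
      rw [h G]
      constructor
      · exact forall₂_congr fun j hj => (hc j (C.ins_lt i0 j hj) G hG).1
      · push Not
        exact exists_congr fun j => and_congr_right fun hj => (hc j (C.ins_lt i0 j hj) G hG).2
    · exact Rail_and _ P fun j hj => hP j (C.ins_lt i0 j hj)
    · exact Rail_or _ Q fun j hj => hQ j (C.ins_lt i0 j hj)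
  · refine ⟨fun G => ∃ j ∈ C.ins i0, P j G, fun G => ∀ j ∈ C.ins i0, Q j G, ?_, ?_, ?_, ?_, ?_⟩
    · rintro G H hGH hV ⟨j, hj, hG⟩
      exact ⟨j, hj, (hm j).1 G H hGH hV hG⟩
    · intro G H hGH hV hG j hj
      exact (hm j).2 G H hGH hV (hG j hj)
    · intro G hG
      rw [h G]
      constructor
      · exact exists_congr fun j => and_congr_right fun hj => (hc j (C.ins_lt i0 j hj) G hG).1
      · push Not
        exact forall₂_congr fun j hj => (hc j (C.ins_lt i0 j hj) G hG).2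
    · exact Rail_or _ P fun j hj => hP j (C.ins_lt i0 j hj)
    · exact Rail_and _ Q fun j hj => hQ j (C.ins_lt i0 j hj)
  · have hji : j < i0 := C.ins_lt i0 j (by rw [hj]; exact mem_singleton_self j)
    refine ⟨Q j, P j, (hm j).2, (hm j).1, ?_, Rail_copy _ (hQ j hji), Rail_copy _ (hP j hji)⟩
    intro G hG
    have h1 := hc j hji G hG
    rw [h G, not_not]
    exact ⟨h1.2, h1.1⟩

theorem Rail_main (C : Circuit n s) {w q S b : ℕ} {𝓐 : Set (Line n)}
    (h : CompL w q S 𝓐) (hth : ∀ e ∈ pairs n, thL ((pairs n).erase e) b ∈ 𝓐) (i : ℕ) (hi : i ≤ s) :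
    ∃ P Q : Fin s → SimpleGraph (Fin n) → Prop,
      (∀ j, MonoOutside ∅ (P j) ∧ MonoOutside ∅ (Q j)) ∧
      (∀ j : Fin s, j.1 < i → ∀ G, cnt (pairs n) G = b →
        ((P j G ↔ C.fn j G) ∧ (Q j G ↔ ¬ C.fn j G))) ∧
      ∃ S' ≤ S + 2 * i, CompL w q S'
        (𝓐 ∪ {x | ∃ j : Fin s, j.1 < i ∧ (x = ⟨P j, ∅, 0⟩ ∨ x = ⟨Q j, ∅, 0⟩)}) := by
  classical
  induction i with
  | zero =>
    refine ⟨fun _ _ => True, fun _ _ => True, fun j => ⟨fun _ _ _ _ h => h, fun _ _ _ _ h => h⟩,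
      fun j hj => absurd hj (Nat.not_lt_zero _), S, by omega, h.subset ?_⟩
    rintro x (hx | ⟨j, hj, -⟩)
    · exact hx
    · exact absurd hj (Nat.not_lt_zero _)
  | succ i ih =>
    obtain ⟨P, Q, hm, hc, S', hS', hcomp⟩ := ih (by omega)
    let i0 : Fin s := ⟨i, by omega⟩
    obtain ⟨p, q', hp, hq', hcor, hop, hoq⟩ := Rail_gate C hth P Q i0 hm
      (fun j hj => hc j (Fin.lt_def.1 hj)) (𝓑 := 𝓐 ∪ {x | ∃ j : Fin s, j.1 < i ∧
        (x = ⟨P j, ∅, 0⟩ ∨ x = ⟨Q j, ∅, 0⟩)}) Set.subset_union_left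
      (fun j hj => Or.inr ⟨j, Fin.lt_def.1 hj, Or.inl rfl⟩)
      (fun j hj => Or.inr ⟨j, Fin.lt_def.1 hj, Or.inr rfl⟩)
    refine ⟨Function.update P i0 p, Function.update Q i0 q', ?_, ?_, S' + 1 + 1, by omega, ?_⟩
    · intro j
      by_cases hj : j = i0
      · subst hj
        rw [Function.update_self, Function.update_self]
        exact ⟨hp, hq'⟩
      · rw [Function.update_of_ne hj, Function.update_of_ne hj]
        exact hm j
    · intro j hj G hG
      by_cases hj' : j = i0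
      · subst hj'
        rw [Function.update_self, Function.update_self]
        exact hcor G hG
      · rw [Function.update_of_ne hj', Function.update_of_ne hj']
        have : j.1 ≠ i := fun h => hj' (Fin.ext h)
        exact hc j (by omega) G hG
    · have h1 := (hcomp.add_one (Rail_ok hp w q) hop).add_one (Rail_ok hq' w q)
        (hoq.mono (Set.subset_insert _ _))
      refine h1.subset ?_
      rintro x (hx | ⟨j, hj, hx⟩)
      · exact Or.inr (Or.inr (Or.inl hx))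
      · by_cases hj' : j = i0
        · subst hj'
          rw [Function.update_self, Function.update_self] at hx
          rcases hx with rfl | rfl
          · exact Or.inr (Or.inl rfl)
          · exact Or.inl rfl
        · rw [Function.update_of_ne hj', Function.update_of_ne hj'] at hx
          have : j.1 ≠ i := fun h => hj' (Fin.ext h)
          exact Or.inr (Or.inr (Or.inr ⟨j, by omega, hx⟩))

end

theorem comp_rail {n s : ℕ} (C : Circuit n s) {w q S b : ℕ} {𝓐 : Set (Line n)}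
    (h : CompL w q S 𝓐) (hth : ∀ e ∈ pairs n, thL ((pairs n).erase e) b ∈ 𝓐) :
    ∃ P Q : Fin s → SimpleGraph (Fin n) → Prop,
      (∀ i G, cnt (pairs n) G = b → ((P i G ↔ C.fn i G) ∧ (Q i G ↔ ¬ C.fn i G))) ∧
      ∃ S' ≤ S + 2 * s, CompL w q S'
        (𝓐 ∪ {x | ∃ i : Fin s, x = ⟨P i, ∅, 0⟩ ∨ x = ⟨Q i, ∅, 0⟩}) := by
  obtain ⟨P, Q, -, hc, S', hS', hcomp⟩ := Rail_main C h hth s le_rfl
  refine ⟨P, Q, fun i G hG => hc i i.2 G hG, S', hS', hcomp.subset ?_⟩
  rintro x (hx | ⟨j, hj⟩)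
  · exact Or.inl hx
  · exact Or.inr ⟨j, j.2, hj⟩

end Pool.Agent.H9.AM
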