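import Pool.Agent.H9.AM.Up0

/-!
# Threshold lines

PROOF. Write `N = n.choose 2 = (pairs n).card`. All lines here have `V = ∅` and level `0`, so
`Below` holds between any two of them (second alternative), and `Ok w q` asks only that the
function is monotone in `G` (`SimpleGraph.edgeSet_mono`, `cnt_mono`).

Step 1: `CompL.empty` and `CompL.add_image` with `I = pairs n`, `f = litL` (an edge test: for
`e = s(u, v)`, `e ∈ G.edgeSet ↔ G.Adj u v`, first alternative of `OverL`). Cost `N`.

Step 2 (one set): if `CompL w q S0 𝓐` and all `litL e`, `e ∈ T`, are in `𝓐`, then there is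
`S1 ≤ S0 + (N + 2) + T.card * (2 * N + 3)` with
`CompL w q S1 (𝓐 ∪ {x | ∃ a ≤ N + 1, x = thL T a})`. Induction on the finset `T`
(`Finset.induction_on`). `T = ∅`: the function of `thL ∅ a` is true for `a = 0` (conjunction over
the empty set) and false otherwise (disjunction over the empty set) (`cnt_empty`); `N + 2` lines.
`insert e T`, `e ∉ T`: first the auxiliary lines
`⟨fun G => e ∈ G.edgeSet ∧ a - 1 ≤ cnt T G, ∅, 0⟩`, `1 ≤ a ≤ N + 1` (conjunctions over
`{litL e, thL T (a - 1)}`), then `thL (insert e T) a`, which is `thL T 0` for `a = 0` (or the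
empty conjunction) and for `a ≥ 1` the disjunction of `thL T a` and the auxiliary line, because
`cnt (insert e T) G = cnt T G + (if e ∈ G.edgeSet then 1 else 0)` (`cnt_insert`); `2 N + 3` lines.
(The new functions equal the old names only up to `propext`; `OverL` only asks for `↔`.)

Step 3: induction on the finset `𝓢`. Each member costs at most
`(N + 2) + N * (2 * N + 3) ≤ 2 * (N + 1) * (N + 2)` because `T.card ≤ N`.
-/

namespace Pool.Agent.H9.AM

open Finset

section

variable {n : ℕ} {w q : ℕ}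

theorem ok_mono {f : SimpleGraph (Fin n) → Prop} (hf : ∀ G H, G ≤ H → f G → f H) :
    (⟨f, ∅, 0⟩ : Line n).Ok w q :=
  ⟨by simp, fun G H h _ => hf G H h, Nat.zero_le _⟩

theorem ok_litL (e : Sym2 (Fin n)) : (litL e).Ok w q :=
  ok_mono fun _ _ h he => SimpleGraph.edgeSet_mono h he

theorem ok_thL (T : Finset (Sym2 (Fin n))) (a : ℕ) : (thL T a).Ok w q :=
  ok_mono fun _ _ h he => le_trans he (cnt_mono h)

theorem below_zero {y x : Line n} (hy : y.lev = 0) (hy' : y.V = ∅) (hx : x.lev = 0)
    (hx' : x.V = ∅) : y.Below x :=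
  Or.inr ⟨by rw [hy, hx], by rw [hy', hx']⟩

theorem over_litL (𝓐 : Set (Line n)) (e : Sym2 (Fin n)) : OverL 𝓐 (litL e) := by
  induction e using Sym2.ind with
  | _ u v => exact Or.inl ⟨u, v, fun G => Iff.rfl⟩

/-- One threshold set. -/
theorem comp_one (T : Finset (Sym2 (Fin n))) (M : ℕ) {S0 : ℕ} {𝓐 : Set (Line n)}
    (h : CompL w q S0 𝓐) (hl : ∀ e ∈ T, litL e ∈ 𝓐) :
    ∃ S1 ≤ S0 + (M + 2) + T.card * (2 * M + 3),
      CompL w q S1 (𝓐 ∪ {x | ∃ a ≤ M + 1, x = thL T a}) := by
  classical
  induction T using Finset.induction_on with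
  | empty =>
    obtain ⟨S1, h1, h2⟩ := h.add_image (range (M + 2)) (fun a => thL (n := n) ∅ a) (by
      intro a _
      refine ⟨ok_thL _ _, ?_⟩
      rcases Nat.eq_zero_or_pos a with rfl | ha
      · exact Or.inr (Or.inl ⟨∅, by simp, by simp, fun G => by simp [thL]⟩)
      · refine Or.inr (Or.inr (Or.inl ⟨∅, by simp, by simp, fun G => ?_⟩))
        simp only [thL, cnt_empty]
        constructor
        · intro h'
          omega
        · rintro ⟨y, hy, -⟩
          exact absurd hy (Set.notMem_empty _))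
    refine ⟨S1, by rw [card_range] at h1; simpa using h1, h2.subset ?_⟩
    apply Set.union_subset_union_right
    rintro x ⟨a, ha, rfl⟩
    exact ⟨a, by simp only [coe_range, Set.mem_Iio]; omega, rfl⟩
  | insert e T he ih =>
    obtain ⟨S1, h1, h2⟩ := ih fun e' he' => hl e' (mem_insert_of_mem he')
    have hle : litL e ∈ 𝓐 := hl e (mem_insert_self _ _)
    let aux : ℕ → Line n := fun a => ⟨fun G => e ∈ G.edgeSet ∧ a ≤ cnt T G, ∅, 0⟩
    obtain ⟨S2, h3, h4⟩ := h2.add_image (range (M + 1)) aux (by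
      intro a ha
      refine ⟨ok_mono fun G H hG hG' =>
        ⟨SimpleGraph.edgeSet_mono hG hG'.1, hG'.2.trans (cnt_mono hG)⟩, ?_⟩
      refine Or.inr (Or.inl ⟨{litL e, thL T a}, ?_, ?_, fun G => ?_⟩)
      · rintro y (rfl | rfl)
        · exact Or.inl hle
        · exact Or.inr ⟨a, by have := mem_range.1 ha; omega, rfl⟩
      · rintro y (rfl | rfl)
        · exact below_zero rfl rfl rfl rfl
        · exact below_zero rfl rfl rfl rfl
      · simp only [Set.mem_insert_iff, Set.mem_singleton_iff, forall_eq_or_imp, forall_eq]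
        exact Iff.rfl)
    obtain ⟨S3, h5, h6⟩ := h4.add_image (range (M + 2)) (fun a => thL (insert e T) a) (by
      intro a ha
      refine ⟨ok_thL _ _, ?_⟩
      rcases a with _ | a
      · exact Or.inr (Or.inl ⟨∅, by simp, by simp, fun G => by simp [thL]⟩)
      · refine Or.inr (Or.inr (Or.inl ⟨{thL T (a + 1), aux a}, ?_, ?_, fun G => ?_⟩))
        · rintro y (rfl | rfl)
          · exact Or.inl (Or.inr ⟨a + 1, by have := mem_range.1 ha; omega, rfl⟩)
          · exact Or.inr ⟨a, by simp only [coe_range, Set.mem_Iio]; have := mem_range.1 ha; omega,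
              rfl⟩
        · rintro y (rfl | rfl)
          · exact below_zero rfl rfl rfl rfl
          · exact below_zero rfl rfl rfl rfl
        · simp only [Set.mem_insert_iff, Set.mem_singleton_iff, exists_eq_or_imp, exists_eq_left]
          simp only [thL, aux, cnt_insert he]
          by_cases hG : e ∈ G.edgeSet
          · simp only [hG, if_true, true_and]
            omega
          · simp only [hG, if_false, false_and, or_false, add_zero])
    refine ⟨S3, ?_, h6.subset ?_⟩
    · rw [card_insert_of_notMem he]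
      rw [card_range] at h3 h5
      have : (T.card + 1) * (2 * M + 3) = T.card * (2 * M + 3) + (2 * M + 3) := by ring
      omega
    · rintro x (hx | ⟨a, ha, rfl⟩)
      · exact Or.inl (Or.inl (Or.inl hx))
      · exact Or.inr ⟨a, by simp only [coe_range, Set.mem_Iio]; omega, rfl⟩

end

theorem comp_thr {n : ℕ} (w q : ℕ) (𝓢 : Finset (Finset (Sym2 (Fin n))))
    (h𝓢 : ∀ T ∈ 𝓢, T ⊆ pairs n) :
    ∃ S ≤ n.choose 2 + 𝓢.card * (2 * (n.choose 2 + 1) * (n.choose 2 + 2)),
      CompL w q S ({x | ∃ e ∈ pairs n, x = litL e} ∪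
        {x | ∃ T ∈ 𝓢, ∃ a ≤ n.choose 2 + 1, x = thL T a}) := by
  classical
  set N := n.choose 2 with hN
  induction 𝓢 using Finset.induction_on with
  | empty =>
    obtain ⟨S1, h1, h2⟩ := (CompL.empty (n := n) (w := w) (q := q)).add_image (pairs n) litL
      (fun e _ => ⟨ok_litL e, over_litL _ e⟩)
    refine ⟨S1, by rw [card_pairs, ← hN] at h1; omega, h2.subset ?_⟩
    rintro x (⟨e, he, rfl⟩ | ⟨T, hT, -⟩)
    · exact Or.inr ⟨e, he, rfl⟩
    · exact absurd hT (notMem_empty _)
  | insert T 𝓢 hT ih =>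
    obtain ⟨S1, h1, h2⟩ := ih fun T' hT' => h𝓢 T' (mem_insert_of_mem hT')
    have hTN : T.card ≤ N := by
      rw [hN, ← card_pairs]
      exact card_le_card (h𝓢 T (mem_insert_self _ _))
    obtain ⟨S2, h3, h4⟩ := comp_one T N h2 (fun e he => Or.inl ⟨e, h𝓢 T (mem_insert_self _ _) he,
      rfl⟩)
    refine ⟨S2, ?_, h4.subset ?_⟩
    · rw [card_insert_of_notMem hT]
      have h5 : T.card * (2 * N + 3) ≤ N * (2 * N + 3) := Nat.mul_le_mul_right _ hTN
      have h6 : (𝓢.card + 1) * (2 * (N + 1) * (N + 2)) =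
        𝓢.card * (2 * (N + 1) * (N + 2)) + 2 * (N + 1) * (N + 2) := by ring
      have h7 : (N + 2) + N * (2 * N + 3) ≤ 2 * (N + 1) * (N + 2) := by nlinarith
      omega
    · rintro x (hx | ⟨T', hT', a, ha, rfl⟩)
      · exact Or.inl (Or.inl hx)
      · rcases mem_insert.1 hT' with rfl | hT'
        · exact Or.inr ⟨a, ha, rfl⟩
        · exact Or.inl (Or.inr ⟨T', hT', a, ha, rfl⟩)

end Pool.Agent.H9.AM
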