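import Pool.Agent.H9.AM.Chain
import Pool.Agent.H9.AM.Rail
import Pool.Agent.H9.AM.Thr

/-!
# Blocks of pairs, slice functions, and the upper bound
-/

namespace Pool.Agent.H9.AM

open Finset

section

variable {n : ℕ}

/-- A set of at most `q * w` pairs is divided into `q` blocks of at most `w` pairs. -/
theorem exists_blocks (P : Finset (Sym2 (Fin n))) (w q : ℕ) (h : P.card ≤ q * w) :
    ∃ B : ℕ → Finset (Sym2 (Fin n)), (∀ i, B i ⊆ P) ∧ (∀ i, (B i).card ≤ w) ∧
      (∀ i, Disjoint (prev B i) (B i)) ∧ prev B q = P := by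
  classical
  set l := P.toList with hl
  have hlen : l.length = P.card := Finset.length_toList P
  have hnd : l.Nodup := Finset.nodup_toList P
  let B : ℕ → Finset (Sym2 (Fin n)) := fun i => ((l.drop (i * w)).take w).toFinset
  have hprev : ∀ i, prev B i = (l.take (i * w)).toFinset := by
    intro i
    induction i with
    | zero => simp [prev]
    | succ i ih =>
      show prev B i ∪ ((l.drop (i * w)).take w).toFinset = _
      rw [ih, add_mul, one_mul, List.take_add, List.toFinset_append]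
  refine ⟨B, ?_, ?_, ?_, ?_⟩
  · intro i e he
    have h1 : e ∈ (l.drop (i * w)).take w := List.mem_toFinset.1 he
    exact Finset.mem_toList.1 (List.mem_of_mem_drop (List.mem_of_mem_take h1))
  · intro i
    refine (List.toFinset_card_le _).trans ?_
    exact List.length_take_le _ _
  · intro i
    rw [hprev, Finset.disjoint_left]
    intro e h1 h2
    have g1 : e ∈ l.take (i * w) := List.mem_toFinset.1 h1
    have g2 : e ∈ (l.drop (i * w)).take w := List.mem_toFinset.1 h2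
    have g3 : (l.take (i * w) ++ l.drop (i * w)).Nodup := by
      rw [List.take_append_drop]
      exact hnd
    exact (List.nodup_append.1 g3).2.2 e g1 e (List.mem_of_mem_take g2) rfl
  · rw [hprev, List.take_of_length_le (by rw [hlen]; exact h)]
    exact Finset.toList_toFinset P

theorem CompL.ok {w q S : ℕ} {𝓐 : Set (Line n)} (h : CompL w q S 𝓐) {x : Line n}
    (hx : x ∈ 𝓐) : x.Ok w q := by
  obtain ⟨g, h1, h2⟩ := h
  obtain ⟨i, hi, rfl⟩ := h2 x hx
  exact (h1 i hi).1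

theorem hatF_mono {P : SimpleGraph (Fin n) → Prop} (hP : ∀ G H, G ≤ H → P G → P H) (b : ℕ)
    {G H : SimpleGraph (Fin n)} (hGH : G ≤ H) (h : hatF P b G) : hatF P b H := by
  have h1 := cnt_mono (S := pairs n) hGH
  rcases h with h | ⟨h, hG⟩
  · exact Or.inl (h.trans_le h1)
  · rcases lt_or_eq_of_le h1 with h2 | h2
    · exact Or.inl (h ▸ h2)
    · exact Or.inr ⟨h2 ▸ h, hP G H hGH hG⟩

/-- The slice functions. -/
theorem comp_hat {s : ℕ} (C : Circuit n s) (out : Fin s)
    (hP : ∀ G H, G ≤ H → C.fn out G → C.fn out H) {w q S : ℕ} {𝓐 : Set (Line n)}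
    (h : CompL w q S 𝓐)
    (hth : ∀ e ∈ pairs n, ∀ b ≤ n.choose 2 + 1, thL ((pairs n).erase e) b ∈ 𝓐)
    (hth' : ∀ b ≤ n.choose 2 + 1, thL (pairs n) b ∈ 𝓐) :
    ∀ m ≤ n.choose 2 + 1, ∃ S' ≤ S + m * (2 * s + 2),
      CompL w q S' (𝓐 ∪ {x | ∃ b < m, x = ⟨hatF (C.fn out) b, ∅, 0⟩}) := by
  intro m
  induction m with
  | zero =>
    intro _
    refine ⟨S, by omega, h.subset ?_⟩
    rintro x (hx | ⟨b, hb, _⟩)
    · exact hx
    · omega
  | succ m ih =>
    intro hm
    obtain ⟨S₁, hS₁, h1⟩ := ih (by omega)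
    obtain ⟨P, Q, hPQ, S₂, hS₂, h2⟩ := comp_rail C (b := m) h1
      (fun e he => Or.inl (hth e he m (by omega)))
    have hPout : (⟨P out, ∅, 0⟩ : Line n) ∈
        ((𝓐 ∪ {x | ∃ b < m, x = ⟨hatF (C.fn out) b, ∅, 0⟩}) ∪
          {x | ∃ i : Fin s, x = ⟨P i, ∅, 0⟩ ∨ x = ⟨Q i, ∅, 0⟩}) :=
      Or.inr ⟨out, Or.inl rfl⟩
    have hPmono : MonoOutside ∅ (P out) := (h2.ok hPout).2.1
    have h3 := h2.add_one (x := ⟨fun G => P out G ∧ m ≤ cnt (pairs n) G, ∅, 0⟩)
      ⟨by simp, fun G H hGH he hG => ⟨hPmono G H hGH he hG.1, hG.2.trans (cnt_mono hGH)⟩,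
        Nat.zero_le _⟩ (by
        refine Or.inr (Or.inl ⟨{⟨P out, ∅, 0⟩, thL (pairs n) m}, ?_, ?_, fun G => ?_⟩)
        · rintro y (rfl | rfl)
          · exact hPout
          · exact Or.inl (Or.inl (hth' m (by omega)))
        · rintro y (rfl | rfl)
          · exact Or.inr ⟨rfl, rfl⟩
          · exact Or.inr ⟨rfl, rfl⟩
        · constructor
          · rintro ⟨g1, g2⟩ y (rfl | rfl)
            · exact g1
            · exact g2
          · intro g
            exact ⟨g _ (Or.inl rfl), g _ (Or.inr rfl)⟩)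
    have h4 := h3.add_one (x := ⟨hatF (C.fn out) m, ∅, 0⟩)
      ⟨by simp, fun G H hGH _ hG => hatF_mono hP m hGH hG, Nat.zero_le _⟩ (by
        refine Or.inr (Or.inr (Or.inl ⟨{⟨fun G => P out G ∧ m ≤ cnt (pairs n) G, ∅, 0⟩,
          thL (pairs n) (m + 1)}, ?_, ?_, fun G => ?_⟩))
        · rintro y (rfl | rfl)
          · exact Or.inl rfl
          · exact Or.inr (Or.inl (Or.inl (hth' (m + 1) hm)))
        · rintro y (rfl | rfl)
          · exact Or.inr ⟨rfl, rfl⟩
          · exact Or.inr ⟨rfl, rfl⟩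
        · constructor
          · rintro (g | ⟨g1, g2⟩)
            · exact ⟨_, Or.inr rfl, g⟩
            · exact ⟨_, Or.inl rfl, ((hPQ out G g1).1).2 g2, g1.ge⟩
          · rintro ⟨y, rfl | rfl, g⟩
            · rcases lt_or_eq_of_le g.2 with g3 | g3
              · exact Or.inl g3
              · exact Or.inr ⟨g3.symm, ((hPQ out G g3.symm).1).1 g.1⟩
            · exact Or.inl g)
    refine ⟨_, ?_, h4.subset ?_⟩
    · calc S₂ + 1 + 1 ≤ S + m * (2 * s + 2) + 2 * s + 1 + 1 := by omega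
        _ = S + (m + 1) * (2 * s + 2) := by ring
    · rintro x (hx | ⟨b, hb, rfl⟩)
      · exact Or.inr (Or.inr (Or.inl (Or.inl hx)))
      · rcases Nat.lt_succ_iff_lt_or_eq.1 hb with hb | rfl
        · exact Or.inr (Or.inr (Or.inl (Or.inr ⟨b, hb, rfl⟩)))
        · exact Or.inl rfl

/-- **The upper bound.** -/
theorem upper {s w q : ℕ} (hN : n.choose 2 ≤ q * w) (C : Circuit n s) (out : Fin s)
    (hP : ∀ G H, G ≤ H → C.fn out G → C.fn out H) :
    ∃ s' ≤ (s + q) * (n + 2) ^ 8, ∃ (C' : Circuit n s') (out' : Fin s'),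
      C'.AlmostMonotone w q ∧ C'.fn out' = C.fn out := by
  classical
  obtain ⟨B, hB1, hB2, hB3, hB4⟩ := exists_blocks (pairs n) w q (by rw [card_pairs]; exact hN)
  set N := n.choose 2 with hNdef
  set 𝓢 : Finset (Finset (Sym2 (Fin n))) := insert (pairs n)
    ((pairs n).image (fun e => (pairs n).erase e) ∪ (range q).image B) with h𝓢
  have h𝓢c : 𝓢.card ≤ N + q + 1 := by
    have e1 := card_insert_le (pairs n)
      ((pairs n).image (fun e => (pairs n).erase e) ∪ (range q).image B)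
    have e2 := card_union_le ((pairs n).image (fun e => (pairs n).erase e)) ((range q).image B)
    have e3 := card_image_le (s := pairs n) (f := fun e => (pairs n).erase e)
    have e4 := card_image_le (s := range q) (f := B)
    rw [card_pairs] at e3
    rw [card_range] at e4
    rw [h𝓢]
    omega
  obtain ⟨S₁, hS₁, h1⟩ := comp_thr w q 𝓢 (by
    intro T hT
    rcases mem_insert.1 hT with rfl | hT
    · exact subset_rfl
    · rcases mem_union.1 hT with hT | hT
      · obtain ⟨e, _, rfl⟩ := mem_image.1 hT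
        exact erase_subset _ _
      · obtain ⟨i, _, rfl⟩ := mem_image.1 hT
        exact hB1 i)
  obtain ⟨S₂, hS₂, h2⟩ := comp_hat C out hP h1
    (fun e he b hb => Or.inr ⟨_, mem_insert_of_mem (mem_union_left _ (mem_image_of_mem _ he)),
      b, hb, rfl⟩)
    (fun b hb => Or.inr ⟨_, mem_insert_self _ _, b, hb, rfl⟩) (N + 1) le_rfl
  obtain ⟨S₃, hS₃, h3⟩ := comp_chain h2 hP hB1 hB2 hB3
    (fun i hi a ha => Or.inl (Or.inr ⟨_, mem_insert_of_mem (mem_union_right _
      (mem_image_of_mem _ (mem_range.2 hi))), a, ha, rfl⟩))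
    (fun b hb => Or.inr ⟨b, Nat.lt_succ_of_le hb, rfl⟩)
  have h4 : CompL w q S₃ {glL (C.fn out) B q 0} := h3.subset (by
    rintro x rfl
    exact Or.inr ⟨0, Nat.zero_le _, rfl⟩)
  obtain ⟨C', out', hC', hout'⟩ := h4.circuit
  have hs : 1 ≤ s := Nat.one_le_iff_ne_zero.2 (by
    rintro rfl
    exact out.elim0)
  refine ⟨S₃, ?_, C', out', hC', ?_⟩
  · -- sizes
    obtain ⟨M, hM⟩ : ∃ M, M = N + 2 := ⟨_, rfl⟩
    have hM2 : 2 * M ≤ (n + 2) ^ 2 := by
      have h5 : N * 2 ≤ n * (n - 1) := by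
        rw [hNdef, Nat.choose_two_right]
        exact Nat.div_mul_le_self _ _
      have h6 : n * (n - 1) ≤ n * n := Nat.mul_le_mul_left _ (Nat.sub_le _ _)
      have h7 : (n + 2) ^ 2 = n * n + 4 * n + 4 := by ring
      omega
    have hM16 : 16 * M ^ 4 ≤ (n + 2) ^ 8 := by
      calc 16 * M ^ 4 = (2 * M) ^ 4 := by ring
        _ ≤ ((n + 2) ^ 2) ^ 4 := Nat.pow_le_pow_left hM2 4
        _ = (n + 2) ^ 8 := by ring
    have hMge : 2 ≤ M := by omega
    have t1 : 𝓢.card * (2 * (N + 1) * (N + 2)) ≤ (M + q) * (2 * M * M) :=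
      Nat.mul_le_mul (by omega) (Nat.mul_le_mul (by omega) (by omega))
    have t2 : (N + 1) * (2 * s + 2) ≤ M * (2 * s + 2) := Nat.mul_le_mul_right _ (by omega)
    have t3 : q * (6 * (N + 2) ^ 2) = q * (6 * M ^ 2) := by rw [hM]
    have t4 : S₃ ≤ M + (M + q) * (2 * M * M) + M * (2 * s + 2) + q * (6 * M ^ 2) := by
      have u1 : S₃ ≤ S₂ + q * (6 * (N + 2) ^ 2) := hS₃
      have u2 : S₂ ≤ S₁ + (N + 1) * (2 * s + 2) := hS₂
      have u3 : S₁ ≤ N + 𝓢.card * (2 * (N + 1) * (N + 2)) := hS₁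
      rw [t3] at u1
      calc S₃ ≤ S₂ + q * (6 * M ^ 2) := u1
        _ ≤ (S₁ + (N + 1) * (2 * s + 2)) + q * (6 * M ^ 2) := Nat.add_le_add_right u2 _
        _ ≤ ((N + 𝓢.card * (2 * (N + 1) * (N + 2))) + M * (2 * s + 2)) + q * (6 * M ^ 2) :=
          Nat.add_le_add_right (Nat.add_le_add u3 t2) _
        _ ≤ _ := Nat.add_le_add_right (Nat.add_le_add_right (Nat.add_le_add (by omega) t1) _) _
    refine t4.trans ?_
    have g1 : M * M ≤ M ^ 4 := by
      calc M * M = M ^ 2 := by ring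
        _ ≤ M ^ 4 := Nat.pow_le_pow_right (by omega) (by norm_num)
    have g2 : M ≤ M ^ 4 := by
      calc M = M ^ 1 := by ring
        _ ≤ M ^ 4 := Nat.pow_le_pow_right (by omega) (by norm_num)
    have g3 : M ^ 3 ≤ M ^ 4 := Nat.pow_le_pow_right (by omega) (by norm_num)
    have g4 : M ^ 4 ≤ s * M ^ 4 := Nat.le_mul_of_pos_left _ hs
    calc M + (M + q) * (2 * M * M) + M * (2 * s + 2) + q * (6 * M ^ 2)
        = 3 * M + 2 * M ^ 3 + 2 * (s * M) + 8 * (q * (M * M)) := by ring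
      _ ≤ 3 * M ^ 4 + 2 * M ^ 4 + 2 * (s * M ^ 4) + 8 * (q * M ^ 4) := by
          have g5 : s * M ≤ s * M ^ 4 := Nat.mul_le_mul_left _ g2
          have g6 : q * (M * M) ≤ q * M ^ 4 := Nat.mul_le_mul_left _ g1
          omega
      _ ≤ 16 * (s * M ^ 4) + 16 * (q * M ^ 4) := by omega
      _ = (s + q) * (16 * M ^ 4) := by ring
      _ ≤ (s + q) * (n + 2) ^ 8 := Nat.mul_le_mul_left _ hM16
  · rw [hout']
    funext G
    show hatF (C.fn out) (0 + cnt (prev B q) G) G = C.fn out G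
    rw [hB4, zero_add]
    refine propext ⟨?_, fun h => Or.inr ⟨rfl, h⟩⟩
    rintro (h | ⟨_, h⟩)
    · exact absurd h (lt_irrefl _)
    · exact h

end

end Pool.Agent.H9.AM
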