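import Pool.Agent.H9.AM.Up0

/-!
# The chain of multiplexers

`glL P B i a` is the line whose function is `hatF P (a + (number of edges in B 0 ∪ ... ∪ B (i-1)))`.

PROOF of `glL_mono`: let `G ≤ H`, put `U = prev B i`, `g = cnt (pairs n) G`, `h = cnt (pairs n) H`,
`x = a + cnt U G`, `y = a + cnt U H`. Then `cnt (pairs n \ U) G ≤ cnt (pairs n \ U) H` and
`cnt (pairs n) = cnt U + cnt (pairs n \ U)` (`cnt_union`, `U ⊆ pairs n`), so `y - x ≤ h - g`.
If `x < g` then `y < h`. If `g = x` and `P G`: either `h = y`, and then `P H` by monotonicity, or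
`h > y`. (So `hatF` is preserved in both cases.)

PROOF of `comp_chain`: induction on `i ≤ q` for: there is `S' ≤ S + i * (6 * (N + 2) ^ 2)` with
`CompL w q S' (𝓐 ∪ {x | ∃ a ≤ N, x = glL P B i a})`, `N = n.choose 2`.
`i = 0`: `prev B 0 = ∅`, `glL P B 0 a = ⟨hatF P a, ∅, 0⟩ ∈ 𝓐` (the functions agree by `cnt_empty`).
Step: all new lines have `V = B i` and level `i + 1`; the inputs have either the same label or
level `≤ i` (`Below`). Add, with `CompL.add_image`, in this order
* `⟨fun G => ¬ (c + 1 ≤ cnt (B i) G), B i, i + 1⟩` for `c ≤ N`: negation of `thL (B i) (c + 1)`;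
* `⟨fun G => cnt (B i) G = c, B i, i + 1⟩` for `c ≤ N`: conjunction of `thL (B i) c` and the former;
* `⟨fun G => cnt (B i) G = c ∧ hatF P (a + c + cnt (prev B i) G) G, B i, i + 1⟩` for `a, c` with
  `a + c ≤ N`: conjunction of the former with `glL P B i (a + c)`;
* `glL P B (i + 1) a`, `a ≤ N`: the disjunction of the former over `c` with `a + c ≤ N`. Proof of
  the equivalence: `prev B (i + 1) = prev B i ∪ B i` (disjoint), so for `c = cnt (B i) G` the
  function of `glL P B (i + 1) a` is `hatF P (a + c + cnt (prev B i) G) G`; if `a + c > N` it is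
  false, because `cnt (pairs n) G ≤ N` (`cnt_le`, `card_pairs`).
These lines are `Ok w q`: `(B i).card ≤ w`, `i + 1 ≤ q`, and they are monotone outside `B i`:
functions of `cnt (B i) G` do not change when edges outside `B i` are added (`cnt_congr`), and
`glL_mono` for the others. The number of new lines is at most
`(N + 1) + (N + 1) + (N + 1) ^ 2 + (N + 1) ≤ 6 * (N + 2) ^ 2`.
-/

namespace Pool.Agent.H9.AM

open Finset

/-- The union of the first `i` blocks. -/
def prev {n : ℕ} (B : ℕ → Finset (Sym2 (Fin n))) : ℕ → Finset (Sym2 (Fin n))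
  | 0 => ∅
  | i + 1 => prev B i ∪ B i

/-- The label of level `i`. -/
def lab {n : ℕ} (B : ℕ → Finset (Sym2 (Fin n))) : ℕ → Finset (Sym2 (Fin n))
  | 0 => ∅
  | i + 1 => B i

/-- The lines of the chain. -/
noncomputable def glL {n : ℕ} (P : SimpleGraph (Fin n) → Prop) (B : ℕ → Finset (Sym2 (Fin n)))
    (i a : ℕ) : Line n := ⟨fun G => hatF P (a + cnt (prev B i) G) G, lab B i, i⟩

theorem glL_mono {n : ℕ} {P : SimpleGraph (Fin n) → Prop} (hP : ∀ G H, G ≤ H → P G → P H)
    {B : ℕ → Finset (Sym2 (Fin n))} (hB : ∀ i, B i ⊆ pairs n) (i a : ℕ)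
    {G H : SimpleGraph (Fin n)} (hGH : G ≤ H) (h : (glL P B i a).fn G) : (glL P B i a).fn H := by
  classical
  have hU : prev B i ⊆ pairs n := by
    induction i with
    | zero => exact empty_subset _
    | succ i ih =>
      have ih' : prev B i ⊆ pairs n := by
        clear h ih
        induction i with
        | zero => exact empty_subset _
        | succ i ih => exact union_subset ih (hB i)
      exact union_subset ih' (hB i)
  have hsplit : ∀ K : SimpleGraph (Fin n),
      cnt (pairs n) K = cnt (prev B i) K + cnt (pairs n \ prev B i) K := by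
    intro K
    rw [← cnt_union disjoint_sdiff, union_sdiff_of_subset hU]
  have h1 := cnt_mono (S := pairs n \ prev B i) hGH
  have h2 := cnt_mono (S := prev B i) hGH
  have h3 := hsplit G
  have h4 := hsplit H
  simp only [glL, hatF] at h ⊢
  rcases h with h | ⟨h, hPG⟩
  · left; omega
  · rcases Nat.lt_or_ge (a + cnt (prev B i) H) (cnt (pairs n) H) with h5 | h5
    · exact Or.inl h5
    · exact Or.inr ⟨by omega, hP G H hGH hPG⟩

private theorem Chain_congr {n : ℕ} {V : Finset (Sym2 (Fin n))} {G H : SimpleGraph (Fin n)}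
    (h : G ≤ H) (hV : ∀ e ∈ V, e ∈ H.edgeSet → e ∈ G.edgeSet) : cnt V G = cnt V H :=
  cnt_congr fun e he => ⟨fun h' => SimpleGraph.edgeSet_mono h h', hV e he⟩

private theorem Chain_step {n : ℕ} {w q S : ℕ} {𝓐 : Set (Line n)}
    {P : SimpleGraph (Fin n) → Prop} (hP : ∀ G H, G ≤ H → P G → P H)
    {B : ℕ → Finset (Sym2 (Fin n))} (hB : ∀ i, B i ⊆ pairs n) (hBw : ∀ i, (B i).card ≤ w)
    (hdis : ∀ i, Disjoint (prev B i) (B i)) {i : ℕ} (hi : i < q)
    (hth : ∀ a ≤ n.choose 2 + 1, thL (B i) a ∈ 𝓐)
    (h : CompL w q S (𝓐 ∪ {x | ∃ a ≤ n.choose 2, x = glL P B i a})) :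
    ∃ S' ≤ S + 6 * (n.choose 2 + 2) ^ 2,
      CompL w q S' (𝓐 ∪ {x | ∃ a ≤ n.choose 2, x = glL P B (i + 1) a}) := by
  classical
  set N := n.choose 2 with hN
  -- first family
  obtain ⟨S1, hS1, h1⟩ := h.add_image (range (N + 1))
    (fun c => (⟨fun G => ¬ (c + 1 ≤ cnt (B i) G), B i, i + 1⟩ : Line n)) (by
      intro c hc
      refine ⟨⟨hBw i, ?_, hi⟩, ?_⟩
      · intro G H hGH hV h'
        simp only at h' ⊢
        rwa [← Chain_congr hGH hV]
      · refine Or.inr (Or.inr (Or.inr ⟨thL (B i) (c + 1), Or.inl (hth _ ?_), Or.inl ?_, ?_⟩))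
        · have := mem_range.1 hc; omega
        · exact Nat.succ_pos i
        · intro G; rfl)
  obtain ⟨S2, hS2, h2⟩ := h1.add_image (range (N + 1))
    (fun c => (⟨fun G => cnt (B i) G = c, B i, i + 1⟩ : Line n)) (by
      intro c hc
      refine ⟨⟨hBw i, ?_, hi⟩, ?_⟩
      · intro G H hGH hV h'
        simp only at h' ⊢
        rwa [← Chain_congr hGH hV]
      · refine Or.inr (Or.inl ⟨{thL (B i) c, ⟨fun G => ¬ (c + 1 ≤ cnt (B i) G), B i, i + 1⟩},
          ?_, ?_, ?_⟩)
        · intro x hx
          rcases hx with rfl | hx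
          · left; left; exact hth _ (by have := mem_range.1 hc; omega)
          · right
            rw [Set.mem_singleton_iff.1 hx]
            exact ⟨c, mem_coe.2 hc, rfl⟩
        · intro x hx
          rcases hx with rfl | hx
          · exact Or.inl (Nat.succ_pos i)
          · rw [Set.mem_singleton_iff.1 hx]
            exact Or.inr ⟨rfl, rfl⟩
        · intro G
          simp only [Set.mem_insert_iff, Set.mem_singleton_iff, forall_eq_or_imp, forall_eq, thL]
          omega)
  obtain ⟨S3, hS3, h3⟩ := h2.add_image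
    (((range (N + 1)) ×ˢ (range (N + 1))).filter fun x => x.1 + x.2 ≤ N)
    (fun x => (⟨fun G => cnt (B i) G = x.2 ∧ hatF P (x.1 + x.2 + cnt (prev B i) G) G,
      B i, i + 1⟩ : Line n)) (by
      intro x hx
      obtain ⟨hx1, hx2⟩ := mem_filter.1 hx
      obtain ⟨hx3, hx4⟩ := mem_product.1 hx1
      refine ⟨⟨hBw i, ?_, hi⟩, ?_⟩
      · intro G H hGH hV h'
        simp only at h' ⊢
        refine ⟨by rw [← Chain_congr hGH hV]; exact h'.1, ?_⟩
        exact glL_mono hP hB i (x.1 + x.2) hGH h'.2
      · refine Or.inr (Or.inl ⟨{⟨fun G => cnt (B i) G = x.2, B i, i + 1⟩,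
          glL P B i (x.1 + x.2)}, ?_, ?_, ?_⟩)
        · intro y hy
          rcases hy with rfl | hy
          · right; exact ⟨x.2, mem_coe.2 hx4, rfl⟩
          · left; left; right
            exact ⟨x.1 + x.2, hx2, Set.mem_singleton_iff.1 hy⟩
        · intro y hy
          rcases hy with rfl | hy
          · exact Or.inr ⟨rfl, rfl⟩
          · rw [Set.mem_singleton_iff.1 hy]
            exact Or.inl (Nat.lt_succ_self i)
        · intro G
          simp only [Set.mem_insert_iff, Set.mem_singleton_iff, forall_eq_or_imp, forall_eq, glL])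
  obtain ⟨S4, hS4, h4⟩ := h3.add_image (range (N + 1)) (fun a => glL P B (i + 1) a) (by
      intro a ha
      refine ⟨⟨hBw i, ?_, hi⟩, ?_⟩
      · intro G H hGH _ h'
        exact glL_mono hP hB (i + 1) a hGH h'
      · refine Or.inr (Or.inr (Or.inl ⟨(fun c => (⟨fun G => cnt (B i) G = c ∧
          hatF P (a + c + cnt (prev B i) G) G, B i, i + 1⟩ : Line n)) '' {c | a + c ≤ N},
          ?_, ?_, ?_⟩))
        · rintro y ⟨c, hc, rfl⟩
          right
          refine ⟨(a, c), ?_, rfl⟩
          have hc' : a + c ≤ N := hc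
          refine mem_coe.2 (mem_filter.2 ⟨mem_product.2 ⟨ha, mem_range.2 ?_⟩, hc'⟩)
          simp only
          omega
        · rintro y ⟨c, hc, rfl⟩
          exact Or.inr ⟨rfl, rfl⟩
        · intro G
          have e1 : cnt (prev B (i + 1)) G = cnt (prev B i) G + cnt (B i) G :=
            cnt_union (hdis i) G
          constructor
          · intro h'
            simp only [glL] at h'
            rw [e1] at h'
            have hc : a + cnt (B i) G ≤ N := by
              by_contra hc
              have h5 := cnt_le (pairs n) G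
              rw [card_pairs] at h5
              rcases h' with h' | ⟨h', _⟩
              · omega
              · omega
            refine ⟨_, ⟨cnt (B i) G, hc, rfl⟩, rfl, ?_⟩
            convert h' using 1
            omega
          · rintro ⟨y, ⟨c, hc, rfl⟩, h5, h6⟩
            simp only [glL]
            rw [e1]
            convert h6 using 1
            omega)
  refine ⟨S4, ?_, h4.subset ?_⟩
  · have hc3 : (((range (N + 1)) ×ˢ (range (N + 1))).filter fun x => x.1 + x.2 ≤ N).card ≤
        (N + 1) * (N + 1) := by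
      refine (card_filter_le _ _).trans ?_
      rw [card_product, card_range]
    rw [card_range] at hS1 hS2 hS4
    nlinarith
  · rintro x (hx | ⟨a, ha, rfl⟩)
    · left; left; left; left; left; exact hx
    · right
      exact ⟨a, mem_coe.2 (mem_range.2 (by omega)), rfl⟩

theorem comp_chain {n : ℕ} {w q S : ℕ} {𝓐 : Set (Line n)} (h : CompL w q S 𝓐)
    {P : SimpleGraph (Fin n) → Prop} (hP : ∀ G H, G ≤ H → P G → P H)
    {B : ℕ → Finset (Sym2 (Fin n))} (hB : ∀ i, B i ⊆ pairs n) (hBw : ∀ i, (B i).card ≤ w)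
    (hdis : ∀ i, Disjoint (prev B i) (B i))
    (hth : ∀ i < q, ∀ a ≤ n.choose 2 + 1, thL (B i) a ∈ 𝓐)
    (hhat : ∀ b ≤ n.choose 2, (⟨hatF P b, ∅, 0⟩ : Line n) ∈ 𝓐) :
    ∃ S' ≤ S + q * (6 * (n.choose 2 + 2) ^ 2),
      CompL w q S' (𝓐 ∪ {x | ∃ a ≤ n.choose 2, x = glL P B q a}) := by
  have key : ∀ i ≤ q, ∃ S' ≤ S + i * (6 * (n.choose 2 + 2) ^ 2),
      CompL w q S' (𝓐 ∪ {x | ∃ a ≤ n.choose 2, x = glL P B i a}) := by
    intro i
    induction i with
    | zero =>
      intro _
      refine ⟨S, by omega, h.subset ?_⟩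
      rintro x (hx | ⟨a, ha, rfl⟩)
      · exact hx
      · have : glL P B 0 a = ⟨hatF P a, ∅, 0⟩ := by
          have e : (fun G => hatF P (a + cnt (prev B 0) G) G) = hatF P a := by
            funext G
            show hatF P (a + cnt ∅ G) G = hatF P a G
            rw [cnt_empty]
            rfl
          show (⟨fun G => hatF P (a + cnt (prev B 0) G) G, ∅, 0⟩ : Line n) = ⟨hatF P a, ∅, 0⟩
          rw [e]
        rw [this]
        exact hhat a ha
    | succ i ih =>
      intro hi
      obtain ⟨S1, hS1, h1⟩ := ih (by omega)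
      obtain ⟨S2, hS2, h2⟩ := Chain_step hP hB hBw hdis (Nat.lt_of_succ_le hi)
        (hth i (Nat.lt_of_succ_le hi)) h1
      refine ⟨S2, ?_, h2⟩
      calc S2 ≤ S1 + 6 * (n.choose 2 + 2) ^ 2 := hS2
        _ ≤ S + i * (6 * (n.choose 2 + 2) ^ 2) + 6 * (n.choose 2 + 2) ^ 2 := by omega
        _ = _ := by ring
  exact key q le_rfl

end Pool.Agent.H9.AM
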