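import Mathlib

/-!
# Circuits whose gates are monotone up to few variables
-/

namespace Pool.Agent.H9.AM

/-- A Boolean circuit with `s` gates, in topological order, for properties of graphs on `Fin n`.
Gate `i` computes the property `fn i`. It tests the adjacency of a fixed pair of vertices, or it
is the conjunction or the disjunction of the earlier gates in `ins i` (of any fan-in), or the
negation of one earlier gate. -/
structure Circuit (n s : ℕ) where
  ins : Fin s → Finset (Fin s)
  fn : Fin s → SimpleGraph (Fin n) → Prop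
  ins_lt : ∀ i, ∀ j ∈ ins i, j < i
  gate : ∀ i, (∃ u v, ∀ G, fn i G ↔ G.Adj u v) ∨
    (∀ G, fn i G ↔ ∀ j ∈ ins i, fn j G) ∨
    (∀ G, fn i G ↔ ∃ j ∈ ins i, fn j G) ∨
    (∃ j, ins i = {j} ∧ ∀ G, fn i G ↔ ¬ fn j G)

/-- The property `f` is monotone in all pairs of vertices outside `V`: adding edges outside `V`
preserves it. -/
def MonoOutside {n : ℕ} (V : Finset (Sym2 (Fin n))) (f : SimpleGraph (Fin n) → Prop) : Prop :=
  ∀ G H : SimpleGraph (Fin n), G ≤ H → (∀ e ∈ V, e ∈ H.edgeSet → e ∈ G.edgeSet) → f G → f H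

/-- Every gate `i` is monotone outside a set `V i` of at most `w` pairs, and along every path
(from a gate to one of its inputs, and so on) this set changes at most `q` times: a level
`lev i ≤ q` drops whenever it changes. -/
def Circuit.AlmostMonotone {n s : ℕ} (C : Circuit n s) (w q : ℕ) : Prop :=
  ∃ (V : Fin s → Finset (Sym2 (Fin n))) (lev : Fin s → ℕ),
    (∀ i, (V i).card ≤ w ∧ MonoOutside (V i) (C.fn i) ∧ lev i ≤ q) ∧
    ∀ i, ∀ j ∈ C.ins i, lev j < lev i ∨ (lev j = lev i ∧ V j = V i)

end Pool.Agent.H9.AM
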