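import Pool.Agent.H9.NW.Hide

/-!
# Hits: a random place of the hidden pairs hits every one of `2 ^ l` small sets at most `l + 1` times

PROOF. All in `ℕ` or `ℝ`. For a fixed `i` and `ρ` let `hits i ρ` be the cardinality below. Then
`2 ^ hits i ρ = ∏ e, (if f.hid e (ρ e) ∈ A i then 2 else 1)` (`Finset.prod_ite`, `prod_const`).
By `Finset.prod_univ_sum` (or `Fintype.sum_pow`-like lemma `Finset.sum_prod_piFinset` /
`Finset.prod_univ_sum` with `Fintype.piFinset univ = univ`)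
`∑ ρ, ∏ e, h e (ρ e) = ∏ e, ∑ r, h e r = ∏ e, (card R + v e)`, where `v e` is the number of `r`
with `f.hid e r ∈ A i`. By `f.h4` the map `(e, r) ↦ f.hid e r` is injective, so
`∑ e, v e ≤ (A i).card ≤ w`.
LEMMA (in `ℝ`, induction on the finset): if `M > 0`, `v e ≥ 0` and `2 * ∑ e ∈ S, v e ≤ M`, then
`∏ e ∈ S, (M + v e) ≤ M ^ S.card * (1 + 2 * (∑ e ∈ S, v e) / M)`; step:
`(1 + 2 a / M) * (1 + x / M) ≤ 1 + 2 (a + x) / M` because `2 a / M ≤ 1`.
Hence `∑ ρ, 2 ^ hits i ρ ≤ 2 * (card R) ^ (card E)`. Summing over `i : Fin s`: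
`∑ ρ, ∑ i, 2 ^ hits i ρ ≤ 2 * s * card (E → R) ≤ 2 ^ (l + 1) * card (E → R)`, so some `ρ`
(`Finset.exists_le_of_sum_le`) has `∑ i, 2 ^ hits i ρ ≤ 2 ^ (l + 1)`, so each `hits i ρ ≤ l + 1`.
-/

namespace Pool.Agent.H9.AM

open Finset
open Pool.Agent.H9.NW

theorem Hits_prod {E : Type} (S : Finset E) (v : E → ℝ) (M : ℝ) (hM : 0 < M)
    (hv : ∀ e, 0 ≤ v e) (hS : 2 * ∑ e ∈ S, v e ≤ M) :
    ∏ e ∈ S, (M + v e) ≤ M ^ S.card * (1 + 2 * (∑ e ∈ S, v e) / M) := by
  classical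
  induction S using Finset.induction_on with
  | empty => simp
  | insert a S ha ih =>
    rw [Finset.sum_insert ha] at hS
    have h0 : 0 ≤ ∑ e ∈ S, v e := Finset.sum_nonneg fun e _ => hv e
    have hx := hv a
    have h1 := ih (by linarith)
    rw [Finset.prod_insert ha, Finset.sum_insert ha, Finset.card_insert_of_notMem ha]
    have h2 : (M + v a) * ∏ e ∈ S, (M + v e) ≤
        (M + v a) * (M ^ S.card * (1 + 2 * (∑ e ∈ S, v e) / M)) :=
      mul_le_mul_of_nonneg_left h1 (by linarith)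
    refine h2.trans ?_
    have h3 : (M + v a) * (1 + 2 * (∑ e ∈ S, v e) / M) ≤
        M * (1 + 2 * (v a + ∑ e ∈ S, v e) / M) := by
      have e1 : M * (1 + 2 * (v a + ∑ e ∈ S, v e) / M) = M + 2 * (v a + ∑ e ∈ S, v e) := by
        field_simp
      have e2 : (M + v a) * (1 + 2 * (∑ e ∈ S, v e) / M) =
          M + 2 * (∑ e ∈ S, v e) + v a + v a * (2 * (∑ e ∈ S, v e) / M) := by
        field_simp
        ring
      have e3 : 2 * (∑ e ∈ S, v e) / M ≤ 1 := by
        rw [div_le_one hM]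
        linarith
      have e4 : v a * (2 * (∑ e ∈ S, v e) / M) ≤ v a * 1 := mul_le_mul_of_nonneg_left e3 hx
      rw [e1, e2]
      linarith
    have h4 := mul_le_mul_of_nonneg_left h3 (pow_nonneg hM.le S.card)
    calc (M + v a) * (M ^ S.card * (1 + 2 * (∑ e ∈ S, v e) / M))
        = M ^ S.card * ((M + v a) * (1 + 2 * (∑ e ∈ S, v e) / M)) := by ring
      _ ≤ M ^ S.card * (M * (1 + 2 * (v a + ∑ e ∈ S, v e) / M)) := h4
      _ = M ^ (S.card + 1) * (1 + 2 * (v a + ∑ e ∈ S, v e) / M) := by ring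

open Classical in
theorem Hits_sum {V E R : Type} [DecidableEq E] [Fintype E] [Fintype R]
    {n : ℕ} (f : Frame V E R n) (A : Finset (Sym2 (Fin n))) :
    ∑ e : E, (univ.filter fun r : R => f.hid e r ∈ A).card ≤ A.card := by
  rw [← Finset.card_sigma]
  refine Finset.card_le_card_of_injOn (fun q => f.hid q.1 q.2) ?_ ?_
  · intro q hq
    have h := (Finset.mem_sigma.1 (Finset.mem_coe.1 hq)).2
    exact Finset.mem_coe.2 (Finset.mem_filter.1 h).2
  · rintro ⟨e, r⟩ _ ⟨e', r'⟩ _ h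
    obtain ⟨h1, h2⟩ := f.h4 e r e' r' h
    subst h1
    subst h2
    rfl

open Classical in
theorem Hits_one {V E R : Type} [DecidableEq E] [Fintype E] [Fintype R] [Nonempty R]
    {n w : ℕ} (f : Frame V E R n) (A : Finset (Sym2 (Fin n)))
    (hA : A.card ≤ w) (hw : 2 * w ≤ Fintype.card R) :
    ∑ ρ : E → R, (2 : ℝ) ^ (univ.filter fun e : E => f.hid e (ρ e) ∈ A).card ≤
      2 * (Fintype.card (E → R) : ℝ) := by
  have hc : (0 : ℝ) < (Fintype.card R : ℝ) := by exact_mod_cast Fintype.card_pos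
  have h1 : ∀ ρ : E → R, (2 : ℝ) ^ (univ.filter fun e : E => f.hid e (ρ e) ∈ A).card =
      ∏ e : E, (if f.hid e (ρ e) ∈ A then (2 : ℝ) else 1) := by
    intro ρ
    rw [← Finset.prod_const, Finset.prod_filter]
  have h2 : ∑ ρ : E → R, ∏ e : E, (if f.hid e (ρ e) ∈ A then (2 : ℝ) else 1) =
      ∏ e : E, ∑ r : R, (if f.hid e r ∈ A then (2 : ℝ) else 1) := by
    rw [Finset.prod_univ_sum, Fintype.piFinset_univ]
  have h3 : ∀ e : E, ∑ r : R, (if f.hid e r ∈ A then (2 : ℝ) else 1) =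
      (Fintype.card R : ℝ) + ((univ.filter fun r : R => f.hid e r ∈ A).card : ℝ) := by
    intro e
    have e1 : ∀ r : R, (if f.hid e r ∈ A then (2 : ℝ) else 1) =
        1 + (if f.hid e r ∈ A then (1 : ℝ) else 0) := by
      intro r
      split_ifs <;> norm_num
    rw [Finset.sum_congr rfl fun r _ => e1 r, Finset.sum_add_distrib, Finset.sum_boole]
    simp
  have h4 : 2 * ∑ e : E, ((univ.filter fun r : R => f.hid e r ∈ A).card : ℝ) ≤
      (Fintype.card R : ℝ) := by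
    have h5 := Hits_sum f A
    have h6 : 2 * ∑ e : E, (univ.filter fun r : R => f.hid e r ∈ A).card ≤ Fintype.card R := by
      omega
    exact_mod_cast h6
  rw [Finset.sum_congr rfl fun ρ _ => h1 ρ, h2, Finset.prod_congr rfl fun e _ => h3 e]
  refine (Hits_prod univ _ _ hc (fun e => Nat.cast_nonneg _) h4).trans ?_
  have h7 : 2 * (∑ e : E, ((univ.filter fun r : R => f.hid e r ∈ A).card : ℝ)) /
      (Fintype.card R : ℝ) ≤ 1 := by
    rw [div_le_one hc]
    exact h4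
  have h8 : (Fintype.card (E → R) : ℝ) = (Fintype.card R : ℝ) ^ (univ : Finset E).card := by
    rw [Fintype.card_fun, Finset.card_univ, Nat.cast_pow]
  rw [h8]
  have h9 := mul_le_mul_of_nonneg_left (add_le_add_right h7 1)
    (pow_nonneg hc.le (univ : Finset E).card)
  linarith

open Classical in
theorem exists_hits {V E R : Type} [DecidableEq E] [Fintype E] [Fintype R] [Nonempty R]
    {n s l w : ℕ} (f : Frame V E R n) (A : Fin s → Finset (Sym2 (Fin n)))
    (hA : ∀ i, (A i).card ≤ w) (hw : 2 * w ≤ Fintype.card R) (hs : s ≤ 2 ^ l) :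
    ∃ ρ : E → R, ∀ i, (univ.filter fun e : E => f.hid e (ρ e) ∈ A i).card ≤ l + 1 := by
  have h1 : ∑ ρ : E → R, ∑ i : Fin s,
      (2 : ℝ) ^ (univ.filter fun e : E => f.hid e (ρ e) ∈ A i).card ≤
      ∑ _ρ : E → R, (2 : ℝ) ^ (l + 1) := by
    rw [Finset.sum_comm, Finset.sum_const, Finset.card_univ, nsmul_eq_mul]
    refine (Finset.sum_le_sum fun i _ => Hits_one f (A i) (hA i) hw).trans ?_
    rw [Finset.sum_const, Finset.card_univ, Fintype.card_fin, nsmul_eq_mul]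
    have h2 : (s : ℝ) ≤ 2 ^ l := by exact_mod_cast hs
    have h3 : (0 : ℝ) ≤ (Fintype.card (E → R) : ℝ) := Nat.cast_nonneg _
    calc (s : ℝ) * (2 * (Fintype.card (E → R) : ℝ))
        ≤ 2 ^ l * (2 * (Fintype.card (E → R) : ℝ)) :=
          mul_le_mul_of_nonneg_right h2 (by linarith)
      _ = (Fintype.card (E → R) : ℝ) * 2 ^ (l + 1) := by ring
  obtain ⟨ρ, -, hρ⟩ := Finset.exists_le_of_sum_le Finset.univ_nonempty h1
  refine ⟨ρ, fun i => ?_⟩
  have h2 : (2 : ℝ) ^ (univ.filter fun e : E => f.hid e (ρ e) ∈ A i).card ≤ 2 ^ (l + 1) :=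
    (Finset.single_le_sum (f := fun i : Fin s =>
      (2 : ℝ) ^ (univ.filter fun e : E => f.hid e (ρ e) ∈ A i).card)
      (fun j _ => by positivity) (Finset.mem_univ i)).trans hρ
  exact (pow_le_pow_iff_right₀ (by norm_num : (1 : ℝ) < 2)).1 h2

end Pool.Agent.H9.AM
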