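import Pool.Agent.H9.AM.Defs

/-!
# Programs of labelled lines, and their conversion into circuits

A line is a property of graphs with a set of pairs (outside which it is monotone) and a level.
-/

namespace Pool.Agent.H9.AM

open Finset

section

variable {n : ℕ}

/-- A property with a set of pairs and a level. -/
structure Line (n : ℕ) where
  fn : SimpleGraph (Fin n) → Prop
  V : Finset (Sym2 (Fin n))
  lev : ℕ

/-- The line is allowed. -/
def Line.Ok (x : Line n) (w q : ℕ) : Prop :=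
  x.V.card ≤ w ∧ MonoOutside x.V x.fn ∧ x.lev ≤ q

/-- The line `y` may be an input of the line `x`. -/
def Line.Below (y x : Line n) : Prop := y.lev < x.lev ∨ (y.lev = x.lev ∧ y.V = x.V)

/-- The line `x` is computed by one gate from lines in `𝓐`. -/
def OverL (𝓐 : Set (Line n)) (x : Line n) : Prop :=
  (∃ u v, ∀ G, x.fn G ↔ G.Adj u v) ∨
  (∃ T : Set (Line n), T ⊆ 𝓐 ∧ (∀ y ∈ T, y.Below x) ∧ ∀ G, x.fn G ↔ ∀ y ∈ T, y.fn G) ∨
  (∃ T : Set (Line n), T ⊆ 𝓐 ∧ (∀ y ∈ T, y.Below x) ∧ ∀ G, x.fn G ↔ ∃ y ∈ T, y.fn G) ∨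
  (∃ y ∈ 𝓐, y.Below x ∧ ∀ G, x.fn G ↔ ¬ y.fn G)

/-- All lines of `𝓐` are computed by one circuit with `S` gates whose gates are monotone outside
sets of at most `w` pairs, with levels at most `q`. -/
def CompL (w q S : ℕ) (𝓐 : Set (Line n)) : Prop :=
  ∃ g : ℕ → Line n, (∀ i < S, (g i).Ok w q ∧ ∃ I : Finset ℕ, (∀ j ∈ I, j < i ∧ (g j).Below (g i)) ∧
    ((∃ u v, ∀ G, (g i).fn G ↔ G.Adj u v) ∨
      (∀ G, (g i).fn G ↔ ∀ j ∈ I, (g j).fn G) ∨
      (∀ G, (g i).fn G ↔ ∃ j ∈ I, (g j).fn G) ∨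
      (∃ j, I = {j} ∧ ∀ G, (g i).fn G ↔ ¬ (g j).fn G))) ∧
    ∀ x ∈ 𝓐, ∃ i < S, g i = x

variable {w q : ℕ}

theorem CompL.empty : CompL (n := n) w q 0 ∅ :=
  ⟨fun _ => ⟨fun _ => True, ∅, 0⟩, fun i hi => absurd hi (Nat.not_lt_zero i),
    fun x hx => absurd hx (by simp)⟩

theorem CompL.subset {S : ℕ} {𝓐 𝓑 : Set (Line n)} (h : CompL w q S 𝓐) (hB : 𝓑 ⊆ 𝓐) :
    CompL w q S 𝓑 := by
  obtain ⟨g, h1, h2⟩ := h
  exact ⟨g, h1, fun x hx => h2 x (hB hx)⟩

theorem OverL.mono {𝓐 𝓑 : Set (Line n)} {x : Line n} (h : OverL 𝓐 x) (hB : 𝓐 ⊆ 𝓑) :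
    OverL 𝓑 x := by
  rcases h with h | ⟨T, hT, h⟩ | ⟨T, hT, h⟩ | ⟨y, hy, h⟩
  · exact Or.inl h
  · exact Or.inr (Or.inl ⟨T, hT.trans hB, h⟩)
  · exact Or.inr (Or.inr (Or.inl ⟨T, hT.trans hB, h⟩))
  · exact Or.inr (Or.inr (Or.inr ⟨y, hB hy, h⟩))

theorem CompL.add_one {S : ℕ} {𝓐 : Set (Line n)} (h : CompL w q S 𝓐) {x : Line n}
    (hok : x.Ok w q) (hx : OverL 𝓐 x) : CompL w q (S + 1) (insert x 𝓐) := by
  classical
  obtain ⟨g, h1, h2⟩ := h
  obtain ⟨g', hold, hnew⟩ : ∃ g' : ℕ → Line n, (∀ j < S, g' j = g j) ∧ g' S = x :=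
    ⟨fun i => if i = S then x else g i, fun j hj => if_neg hj.ne, if_pos rfl⟩
  refine ⟨g', ?_, ?_⟩
  · intro i hi
    rcases Nat.lt_succ_iff_lt_or_eq.1 hi with hi | rfl
    · obtain ⟨h3, I, hI, h4⟩ := h1 i hi
      have hg : ∀ j ∈ I, g' j = g j := fun j hj => hold j ((hI j hj).1.trans hi)
      refine ⟨by rw [hold i hi]; exact h3, I, fun j hj => ?_, ?_⟩
      · rw [hold i hi, hg j hj]
        exact hI j hj
      · rw [hold i hi]
        rcases h4 with h4 | h4 | h4 | ⟨j, hj, h4⟩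
        · exact Or.inl h4
        · refine Or.inr (Or.inl fun G => ?_)
          rw [h4]
          exact forall₂_congr fun j hj => by rw [hg j hj]
        · refine Or.inr (Or.inr (Or.inl fun G => ?_))
          rw [h4]
          exact exists_congr fun j => and_congr_right fun hj => by rw [hg j hj]
        · refine Or.inr (Or.inr (Or.inr ⟨j, hj, fun G => ?_⟩))
          rw [h4, hg j (by rw [hj]; exact mem_singleton_self j)]
    · rw [hnew]
      refine ⟨hok, ?_⟩
      rcases hx with hx | ⟨T, hT, hb, hx⟩ | ⟨T, hT, hb, hx⟩ | ⟨y, hy, hb, hx⟩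
      · exact ⟨∅, by simp, Or.inl hx⟩
      · refine ⟨(range i).filter fun j => g j ∈ T, ?_, Or.inr (Or.inl fun G => ?_)⟩
        · intro j hj
          have hj' := mem_filter.1 hj
          rw [hold j (mem_range.1 hj'.1)]
          exact ⟨mem_range.1 hj'.1, hb _ hj'.2⟩
        · rw [hx]
          constructor
          · intro h j hj
            have hj' := mem_filter.1 hj
            rw [hold j (mem_range.1 hj'.1)]
            exact h _ hj'.2
          · intro h y hy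
            obtain ⟨j, hj, rfl⟩ := h2 y (hT hy)
            have := h j (mem_filter.2 ⟨mem_range.2 hj, hy⟩)
            rwa [hold j hj] at this
      · refine ⟨(range i).filter fun j => g j ∈ T, ?_, Or.inr (Or.inr (Or.inl fun G => ?_))⟩
        · intro j hj
          have hj' := mem_filter.1 hj
          rw [hold j (mem_range.1 hj'.1)]
          exact ⟨mem_range.1 hj'.1, hb _ hj'.2⟩
        · rw [hx]
          constructor
          · rintro ⟨y, hy, h⟩
            obtain ⟨j, hj, rfl⟩ := h2 y (hT hy)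
            exact ⟨j, mem_filter.2 ⟨mem_range.2 hj, hy⟩, by rw [hold j hj]; exact h⟩
          · rintro ⟨j, hj, h⟩
            have hj' := mem_filter.1 hj
            rw [hold j (mem_range.1 hj'.1)] at h
            exact ⟨_, hj'.2, h⟩
      · obtain ⟨j, hj, rfl⟩ := h2 y hy
        refine ⟨{j}, ?_, Or.inr (Or.inr (Or.inr ⟨j, rfl, fun G => ?_⟩))⟩
        · intro k hk
          rw [mem_singleton.1 hk, hold j hj]
          exact ⟨hj, hb⟩
        · rw [hx, hold j hj]
  · intro y hy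
    rcases hy with rfl | hy
    · exact ⟨S, by omega, hnew⟩
    · obtain ⟨j, hj, rfl⟩ := h2 y hy
      exact ⟨j, by omega, hold j hj⟩

/-- Adding a finite family of gates. -/
theorem CompL.add {S : ℕ} {𝓐 : Set (Line n)} (h : CompL w q S 𝓐) (𝓑 : Finset (Line n))
    (hB : ∀ x ∈ 𝓑, x.Ok w q ∧ OverL 𝓐 x) :
    CompL w q (S + 𝓑.card) (𝓐 ∪ (𝓑 : Set (Line n))) := by
  classical
  induction 𝓑 using Finset.induction_on with
  | empty => simpa using h
  | insert x 𝓑 hx ih =>
    have h1 := ih fun y hy => hB y (mem_insert_of_mem hy)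
    have h2 := h1.add_one (hB x (mem_insert_self _ _)).1
      ((hB x (mem_insert_self _ _)).2.mono Set.subset_union_left)
    rw [card_insert_of_notMem hx, ← add_assoc]
    refine h2.subset ?_
    rw [coe_insert, Set.union_insert]

/-- Adding a family of gates indexed by a finite set. -/
theorem CompL.add_image {S : ℕ} {𝓐 : Set (Line n)} (h : CompL w q S 𝓐) {ι : Type}
    (I : Finset ι) (f : ι → Line n) (hB : ∀ i ∈ I, (f i).Ok w q ∧ OverL 𝓐 (f i)) :
    ∃ S' ≤ S + I.card, CompL w q S' (𝓐 ∪ f '' (I : Set ι)) := by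
  classical
  refine ⟨_, Nat.add_le_add_left (card_image_le (s := I) (f := f)) S, ?_⟩
  have := h.add (I.image f) (by
    intro x hx
    obtain ⟨i, hi, rfl⟩ := mem_image.1 hx
    exact hB i hi)
  rw [coe_image] at this
  exact this

/-- From programs of lines to circuits. -/
theorem CompL.circuit {S : ℕ} {x : Line n} (h : CompL w q S {x}) :
    ∃ (C : Circuit n S) (out : Fin S), C.AlmostMonotone w q ∧ C.fn out = x.fn := by
  classical
  obtain ⟨g, h1, h2⟩ := h
  obtain ⟨o, ho, hx⟩ := h2 x rfl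
  have h3 : ∀ i : Fin S, ∃ I : Finset (Fin S), (∀ j ∈ I, j < i ∧ (g j).Below (g i)) ∧
    ((∃ u v, ∀ G, (g i).fn G ↔ G.Adj u v) ∨
      (∀ G, (g i).fn G ↔ ∀ j ∈ I, (g j).fn G) ∨
      (∀ G, (g i).fn G ↔ ∃ j ∈ I, (g j).fn G) ∨
      (∃ j, I = {j} ∧ ∀ G, (g i).fn G ↔ ¬ (g j).fn G)) := by
    intro i
    obtain ⟨_, I, hI, h4⟩ := h1 i i.2
    have hmem : ∀ j (hj : j ∈ I), j < S := fun j hj => (hI j hj).1.trans i.2
    have hI' : ∀ j : Fin S, j ∈ univ.filter (fun j : Fin S => j.1 ∈ I) ↔ j.1 ∈ I := by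
      intro j
      simp
    refine ⟨univ.filter fun j : Fin S => j.1 ∈ I, ?_, ?_⟩
    · intro j hj
      have := hI j.1 ((hI' j).1 hj)
      exact ⟨Fin.lt_def.2 this.1, this.2⟩
    · rcases h4 with h4 | h4 | h4 | ⟨j, hj, h4⟩
      · exact Or.inl h4
      · refine Or.inr (Or.inl fun G => ?_)
        rw [h4]
        constructor
        · intro h j hj
          exact h _ ((hI' j).1 hj)
        · intro h j hj
          exact h ⟨j, hmem j hj⟩ ((hI' _).2 hj)
      · refine Or.inr (Or.inr (Or.inl fun G => ?_))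
        rw [h4]
        constructor
        · rintro ⟨j, hj, h⟩
          exact ⟨⟨j, hmem j hj⟩, (hI' _).2 hj, h⟩
        · rintro ⟨j, hj, h⟩
          exact ⟨_, (hI' j).1 hj, h⟩
      · have hjS : j < S := hmem j (by rw [hj]; exact mem_singleton_self j)
        refine Or.inr (Or.inr (Or.inr ⟨⟨j, hjS⟩, ?_, h4⟩))
        ext k
        rw [hI', hj, mem_singleton, mem_singleton, Fin.ext_iff]
  choose ins hins using h3
  refine ⟨⟨ins, fun i => (g i).fn, fun i j hj => ((hins i).1 j hj).1, fun i => (hins i).2⟩,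
    ⟨o, ho⟩, ⟨fun i => (g i).V, fun i => (g i).lev, fun i => (h1 i i.2).1, fun i j hj =>
      ((hins i).1 j hj).2⟩, ?_⟩
  show (g o).fn = x.fn
  rw [hx]

end

end Pool.Agent.H9.AM
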