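import Pool.Agent.H9.AM.SimProg
import Pool.Agent.H9.AM.Defs
import Pool.Agent.H9.NW.Hide

/-!
# A frame and an almost monotone circuit with few hits give a small monotone program

`f : Frame V E R n` embeds graphs `x` on `V` into graphs `f.gr ρ x` on `Fin n`; the adjacency of
the pair `f.ends e` is represented by the pair `f.hid e (ρ e)` (`f.h1`); all other pairs do not
depend on `x` (`f.h2`).

PROOF. Fix `ρ`. For `X : Finset E` let `sg X : SimpleGraph V` be the graph with
`Adj v v' ↔ v ≠ v' ∧ ∃ e ∈ X, (f.ends e = (v, v') ∨ f.ends e = (v', v))`. By `hends` and `f.ne`: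
`(sg X).Adj (f.ends e).1 (f.ends e).2 ↔ e ∈ X`. Put `φ i X := C.fn i (f.gr ρ (sg X))`,
`W i := univ.filter fun e => f.hid e (ρ e) ∈ Vs i`, and apply `sim` with `p = p`.
* Gate types: `C.gate i`: input `u v`: `(f.gr ρ (sg X)).Adj u v ↔ s(u, v) ∈ (f.gr ρ (sg X)).edgeSet`;
  if `s(u, v) = f.hid e (ρ e)` for some `e` this is `e ∈ X` by `f.h1`; otherwise by `f.h2` it does
  not depend on `X`: constant true or constant false. The other types are immediate.
* Monotonicity: `X ⊆ Y → f.gr ρ (sg X) ≤ f.gr ρ (sg Y)`: for `a ∈ edgeSet`: if `a = f.hid e (ρ e)`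
  use `f.h1`, otherwise `f.h2`. `MonoOutside (Vs i) (C.fn i)` then gives
  `MonoOut (W i) (φ i)`: for `a ∈ Vs i` in the edge set of the larger graph: if `a = f.hid e (ρ e)`
  then `e ∈ W i` and `f.h1`; otherwise `f.h2`.
* `MonoOut ∅ (φ out)` from `hout` in the same way.
Result: `Comp S {φ out}` with `S = (3 s + 3) (8 card E + 1) ^ (p (q + 1))`. Take its program `g`,
and put `f' i x := g i (univ.filter fun e => x.Adj (f.ends e).1 (f.ends e).2)`; every `f' i`,
`i < S`, is a `WGate` (`Pool/Agent/H9/NW/Wide.lean`), so `monoSize_of_wide` gives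
`MonoSize (S * (S + 1))` for `fun x => C.fn out (f.gr ρ (sg (univ.filter ...)))`, and
`f.gr ρ (sg (univ.filter ...)) = f.gr ρ x`: two graphs with the same edge sets, by `f.h1`
and `f.h2`.
-/

namespace Pool.Agent.H9.AM

open Finset
open Pool.Agent.H25 Pool.Agent.H25.NM Pool.Agent.H9.NW

/-- the graph of a set of represented pairs -/
def link_sg {V E : Type} (ends : E → V × V) (X : Finset E) : SimpleGraph V where
  Adj v v' := v ≠ v' ∧ ∃ e ∈ X, (ends e = (v, v') ∨ ends e = (v', v))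
  symm := ⟨by
    rintro v v' ⟨h1, e, he, h2⟩
    exact ⟨h1.symm, e, he, h2.symm⟩⟩
  loopless := ⟨fun v h => h.1 rfl⟩

theorem link_sg_adj {V E : Type} {ends : E → V × V} (hne : ∀ e, (ends e).1 ≠ (ends e).2)
    (hends : ∀ e e', s((ends e).1, (ends e).2) = s((ends e').1, (ends e').2) → e = e')
    (X : Finset E) (e : E) : (link_sg ends X).Adj (ends e).1 (ends e).2 ↔ e ∈ X := by
  constructor
  · rintro ⟨_, e', he', h⟩
    have h1 : e' = e := by
      apply hends
      rcases h with h | h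
      · rw [h]
      · rw [h]
        exact Sym2.eq_swap
    rw [← h1]
    exact he'
  · intro he
    exact ⟨hne e, e, he, Or.inl rfl⟩

section

variable {V E R : Type} [DecidableEq E] {n : ℕ}

theorem link_iff (f : Frame V E R n) (ρ : E → R) (x x' : SimpleGraph V) {a : Sym2 (Fin n)}
    (ha : ¬ ∃ e, a = f.hid e (ρ e)) :
    a ∈ (f.gr ρ x).edgeSet ↔ a ∈ (f.gr ρ x').edgeSet := by
  push Not at ha
  exact ⟨f.h2 ρ x x' a ha, f.h2 ρ x' x a ha⟩

theorem link_mono (f : Frame V E R n)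
    (hends : ∀ e e', s((f.ends e).1, (f.ends e).2) = s((f.ends e').1, (f.ends e').2) → e = e')
    (ρ : E → R) {X Y : Finset E} (h : X ⊆ Y) :
    f.gr ρ (link_sg f.ends X) ≤ f.gr ρ (link_sg f.ends Y) := by
  intro u v huv
  rw [← SimpleGraph.mem_edgeSet] at huv ⊢
  by_cases ha : ∃ e, s(u, v) = f.hid e (ρ e)
  · obtain ⟨e, he⟩ := ha
    rw [he, f.h1, link_sg_adj f.ne hends] at huv ⊢
    exact h huv
  · exact (link_iff f ρ _ _ ha).1 huv

end

open Classical in
theorem link {V E R : Type} [DecidableEq E] [Fintype E] {n s p q : ℕ} (f : Frame V E R n)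
    (hends : ∀ e e', s((f.ends e).1, (f.ends e).2) = s((f.ends e').1, (f.ends e').2) → e = e')
    (ρ : E → R) (C : Circuit n s) (Vs : Fin s → Finset (Sym2 (Fin n))) (lev : Fin s → ℕ)
    (hVs : ∀ i, MonoOutside (Vs i) (C.fn i) ∧ lev i ≤ q)
    (hlev : ∀ i, ∀ j ∈ C.ins i, lev j < lev i ∨ (lev j = lev i ∧ Vs j = Vs i))
    (hhit : ∀ i, (univ.filter fun e : E => f.hid e (ρ e) ∈ Vs i).card ≤ p) (hp : 1 ≤ p)
    (out : Fin s) (hout : ∀ G H, G ≤ H → C.fn out G → C.fn out H) :
    MonoSize (((3 * s + 3) * (8 * Fintype.card E + 1) ^ (p * (q + 1))) *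
      ((3 * s + 3) * (8 * Fintype.card E + 1) ^ (p * (q + 1)) + 1))
      (fun x : SimpleGraph V => C.fn out (f.gr ρ x)) := by
  have key := sim (p := p) (q := q) C.ins
    (fun i X => C.fn i (f.gr ρ (link_sg f.ends X))) C.ins_lt (by
      intro i
      rcases C.gate i with ⟨u, v, h⟩ | h | h | ⟨j, hj, h⟩
      · by_cases ha : ∃ e, s(u, v) = f.hid e (ρ e)
        · obtain ⟨e, he⟩ := ha
          refine Or.inl ⟨e, fun X => ?_⟩
          rw [h, ← SimpleGraph.mem_edgeSet, he, f.h1, link_sg_adj f.ne hends]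
        · by_cases h2 : s(u, v) ∈ (f.gr ρ (link_sg f.ends ∅)).edgeSet
          · refine Or.inr (Or.inl fun X => ?_)
            rw [h, ← SimpleGraph.mem_edgeSet]
            exact (link_iff f ρ _ _ ha).1 h2
          · refine Or.inr (Or.inr (Or.inl fun X => ?_))
            rw [h, ← SimpleGraph.mem_edgeSet]
            exact fun h3 => h2 ((link_iff f ρ _ _ ha).1 h3)
      · exact Or.inr (Or.inr (Or.inr (Or.inl fun X => h _)))
      · exact Or.inr (Or.inr (Or.inr (Or.inr (Or.inl fun X => h _))))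
      · exact Or.inr (Or.inr (Or.inr (Or.inr (Or.inr ⟨j, hj, fun X => h _⟩)))))
    (fun i => univ.filter fun e : E => f.hid e (ρ e) ∈ Vs i) lev
    (by
      intro i
      refine ⟨hhit i, ?_, (hVs i).2⟩
      intro X Y hXY hW hX
      refine (hVs i).1 _ _ (link_mono f hends ρ hXY) ?_ hX
      intro a ha haY
      by_cases hh : ∃ e, a = f.hid e (ρ e)
      · obtain ⟨e, rfl⟩ := hh
        rw [f.h1, link_sg_adj f.ne hends] at haY ⊢
        exact hW e (mem_filter.2 ⟨mem_univ _, ha⟩) haY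
      · exact (link_iff f ρ _ _ hh).1 haY)
    (by
      intro i j hj
      rcases hlev i j hj with h | ⟨h1, h2⟩
      · exact Or.inl h
      · refine Or.inr ⟨h1, ?_⟩
        simp only [h2])
    out (by
      intro X Y hXY _ hX
      exact hout _ _ (link_mono f hends ρ hXY) hX) hp
  obtain ⟨g, hg, hg2⟩ := key
  obtain ⟨i₀, hi₀, hgi⟩ := hg2 _ rfl
  let ed : SimpleGraph V → Finset E := fun x =>
    univ.filter fun e => x.Adj (f.ends e).1 (f.ends e).2
  have hed : ∀ (x : SimpleGraph V) (e : E), e ∈ ed x ↔ x.Adj (f.ends e).1 (f.ends e).2 := by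
    intro x e
    simp [ed]
  have hgr : ∀ x : SimpleGraph V, f.gr ρ (link_sg f.ends (ed x)) = f.gr ρ x := by
    intro x
    rw [← SimpleGraph.edgeSet_inj]
    ext a
    by_cases hh : ∃ e, a = f.hid e (ρ e)
    · obtain ⟨e, rfl⟩ := hh
      rw [f.h1, f.h1, link_sg_adj f.ne hends, hed]
    · exact link_iff f ρ _ _ hh
  have hw := monoSize_of_wide (V := V) (f := fun i x => g i (ed x)) (fun i hi => by
    rcases hg i hi with ⟨e, he⟩ | ⟨S, hS, h⟩ | ⟨S, hS, h⟩
    · refine Or.inl ⟨(f.ends e).1, (f.ends e).2, fun x => ?_⟩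
      show g i (ed x) ↔ _
      rw [he, hed]
    · exact Or.inr (Or.inl ⟨S, hS, fun x => h _⟩)
    · exact Or.inr (Or.inr ⟨S, hS, fun x => h _⟩)) hi₀
  have he : (fun x : SimpleGraph V => g i₀ (ed x)) = fun x => C.fn out (f.gr ρ x) := by
    funext x
    rw [hgi]
    show C.fn out (f.gr ρ (link_sg f.ends (ed x))) = _
    rw [hgr]
  have hw2 : MonoSize (((3 * s + 3) * (8 * Fintype.card E + 1) ^ (p * (q + 1))) *
      ((3 * s + 3) * (8 * Fintype.card E + 1) ^ (p * (q + 1)) + 1))
      (fun x : SimpleGraph V => g i₀ (ed x)) := hw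
  rw [he] at hw2
  exact hw2

end Pool.Agent.H9.AM
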