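import Pool.Agent.H9.NW.Core
import Pool.Agent.H25.NP.Main

/-!
# Small monotone programs do not separate planted transversal cliques from clique-free graphs

PROOF of `no_mono`: COPY the end of the proof of `Pool.Agent.H9.NW.core`
(file `Pool/Agent/H9/NW/Core.lean`, from the comment on positive graphs) with `F` given, and
`hgood : P ≤ 2 * nc ...` replaced by: all `p` satisfy `F (cq (tr p))`, so
`nc (fun p => F (cq (tr p))) = card (Fin c → Fin b)`; `hneg` as there with `hneg` instead of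
`hsound` (`NW.nc_dense_clique`), the block lemma `NP.blockHyp_dense ... .main`, the error term
and the conclusion are unchanged.

PROOF of `no_mono'`: `no_mono` with `m = 4 * l`, `h = 16 * (l * L)`, `Q = 16 * l ^ 2`,
`S = 2 ^ (4 * l)`; COPY the verifications of these hypotheses from the end of the proof of
`Pool.Agent.H9.NW.main` (file `Pool/Agent/H9/NW/Main.lean`, after `refine core ...`; there
`hcb3 : c * b + 1 ≤ 2 ^ L` is used, and `NP.clique_count` needs `4 * (c * b) ≤ 2 ^ L`).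
-/

namespace Pool.Agent.H9.AM

open Finset
open Pool.Agent.H25 Pool.Agent.H25.NM Pool.Agent.H9.NW

theorem no_mono {c b Q m h S : ℕ} [NeZero Q]
    (hm : 2 ≤ m) (hh : 1 ≤ h) (hQ : m * m ≤ Q) (hb : 32 * (h * m) ≤ b)
    (hcl : 8 * (c * b) ^ c * (Q - 1) ^ (c.choose 2) ≤ Q ^ (c.choose 2))
    (he1 : 8 * (S * ((m + 1) ^ 2 * 2 ^ m)) ≤ 32 ^ (m + 1))
    (he2 : 8 * (S * (c * b + 1) ^ m) ≤ 2 ^ h)
    (F : SimpleGraph (Fin c × Fin b) → Prop) (hF : MonoSize S F)
    (hpos : ∀ p : Fin c → Fin b, F (cq (tr p)))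
    (hneg : ∀ x : SimpleGraph (Fin c × Fin b), x.CliqueFree c → ¬ F x) : False := by
  classical
  -- positive graphs
  have hP0 : 0 < b := by
    have : 1 ≤ h * m := Nat.one_le_iff_ne_zero.2 (Nat.mul_ne_zero (by omega) (by omega))
    omega
  have : Nonempty (Fin b) := ⟨⟨0, hP0⟩⟩
  set P := Fintype.card (Fin c → Fin b) with hP
  have hPpos : 0 < P := Fintype.card_pos
  have hgood : P ≤ 2 * nc (fun p : Fin c → Fin b => F (cq (tr p))) := by
    have h2 := nc_add_nc_not fun p : Fin c → Fin b => F (cq (tr p))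
    rw [← hP] at h2
    have h1 : nc (fun p : Fin c → Fin b => ¬ F (cq (tr p))) ≤ 0 := by
      refine le_trans (nc_mono (q := fun _ => False) fun p hp => hp (hpos p)) ?_
      simp [nc]
    omega
  -- negative graphs
  set Ω := Fintype.card (Sym2 (Fin c × Fin b) → Fin Q) with hΩ
  have hΩpos : 0 < Ω := Fintype.card_pos
  have hneg8 : 8 * nc (fun ω : Sym2 (Fin c × Fin b) → Fin Q => F (gr (NP.nz Q) ω)) ≤ Ω := by
    have h1 : nc (fun ω : Sym2 (Fin c × Fin b) → Fin Q => F (gr (NP.nz Q) ω)) ≤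
        nc (fun ω : Sym2 (Fin c × Fin b) → Fin Q =>
          ¬ (gr (NP.nz Q) ω : SimpleGraph (Fin c × Fin b)).CliqueFree c) := by
      refine nc_mono fun ω hω hfree => ?_
      exact hneg _ hfree hω
    have h2 := nc_dense_clique (V := Fin c × Fin b) Q c
    rw [Fintype.card_prod, Fintype.card_fin, Fintype.card_fin, ← hΩ] at h2
    have hQp : 0 < Q ^ (c.choose 2) := Nat.pow_pos (Nat.pos_of_ne_zero (NeZero.ne Q))
    refine Nat.le_of_mul_le_mul_right ?_ hQp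
    calc 8 * nc (fun ω : Sym2 (Fin c × Fin b) → Fin Q => F (gr (NP.nz Q) ω)) * Q ^ (c.choose 2)
        ≤ 8 * nc (fun ω : Sym2 (Fin c × Fin b) → Fin Q =>
          ¬ (gr (NP.nz Q) ω : SimpleGraph (Fin c × Fin b)).CliqueFree c) * Q ^ (c.choose 2) :=
          Nat.mul_le_mul_right _ (Nat.mul_le_mul_left _ h1)
      _ = 8 * (nc (fun ω : Sym2 (Fin c × Fin b) → Fin Q =>
          ¬ (gr (NP.nz Q) ω : SimpleGraph (Fin c × Fin b)).CliqueFree c) * Q ^ (c.choose 2)) := by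
          ring
      _ ≤ 8 * ((c * b) ^ c * (Q - 1) ^ (c.choose 2) * Ω) := Nat.mul_le_mul_left _ h2
      _ = (8 * (c * b) ^ c * (Q - 1) ^ (c.choose 2)) * Ω := by ring
      _ ≤ Q ^ (c.choose 2) * Ω := Nat.mul_le_mul_right _ hcl
      _ = Ω * Q ^ (c.choose 2) := by ring
  -- the block lemma
  have hB := NP.blockHyp_dense (k := c) (w := b) (Q := Q) m h (by omega) hh hQ hb
  have hmain := hB.main hm hF
  rw [nc_prod_and (fun p : Fin c → Fin b => F (cq (tr p)))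
    fun ω : Sym2 (Fin c × Fin b) → Fin Q => ¬ F (gr (NP.nz Q) ω), ← hP, ← hΩ] at hmain
  have hnot := nc_add_nc_not fun ω : Sym2 (Fin c × Fin b) → Fin Q => F (gr (NP.nz Q) ω)
  rw [← hΩ] at hnot
  -- the error term
  set η : ℝ := (1 / 32 : ℝ) ^ (m + 1) with hη
  have hε : (S : ℝ) * ((m + 1) ^ 2 * 2 ^ m * η + small (Fin c × Fin b) m / ((2 ^ h : ℕ) : ℝ)) ≤
      1 / 4 := by
    have g1 : (S : ℝ) * ((m + 1) ^ 2 * 2 ^ m * η) ≤ 1 / 8 := by
      have e1 : (8 : ℝ) * ((S : ℝ) * ((m + 1) ^ 2 * 2 ^ m)) ≤ 32 ^ (m + 1) := by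
        exact_mod_cast he1
      have e2 : η * 32 ^ (m + 1) = 1 := by
        rw [hη, ← mul_pow]
        norm_num
      have e3 : (0 : ℝ) ≤ η := by
        rw [hη]
        positivity
      have e4 := mul_le_mul_of_nonneg_left e1 e3
      rw [e2] at e4
      linarith
    have g2 : (S : ℝ) * (small (Fin c × Fin b) m / ((2 ^ h : ℕ) : ℝ)) ≤ 1 / 8 := by
      have e3 := NP.small_le (Fin c × Fin b) m
      rw [Fintype.card_prod, Fintype.card_fin, Fintype.card_fin] at e3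
      have e4 : 8 * (S * small (Fin c × Fin b) m) ≤ 2 ^ h :=
        le_trans (Nat.mul_le_mul_left _ (Nat.mul_le_mul_left _ e3)) he2
      have e5 : (8 : ℝ) * ((S : ℝ) * small (Fin c × Fin b) m) ≤ ((2 ^ h : ℕ) : ℝ) := by
        exact_mod_cast e4
      have e6 : (0 : ℝ) < ((2 ^ h : ℕ) : ℝ) := by positivity
      rw [← mul_div_assoc, div_le_iff₀ e6]
      linarith
    have g3 : (S : ℝ) * ((m + 1) ^ 2 * 2 ^ m * η + small (Fin c × Fin b) m / ((2 ^ h : ℕ) : ℝ)) =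
        (S : ℝ) * ((m + 1) ^ 2 * 2 ^ m * η) +
          (S : ℝ) * (small (Fin c × Fin b) m / ((2 ^ h : ℕ) : ℝ)) := by ring
    rw [g3]
    linarith
  -- conclusion
  set X := nc (fun p : Fin c → Fin b => F (cq (tr p))) with hX
  set Y := nc (fun ω : Sym2 (Fin c × Fin b) → Fin Q => F (gr (NP.nz Q) ω)) with hY
  set Y' := nc (fun ω : Sym2 (Fin c × Fin b) → Fin Q => ¬ F (gr (NP.nz Q) ω)) with hY'
  have hPr : (0 : ℝ) < P := by exact_mod_cast hPpos
  have hΩr : (0 : ℝ) < Ω := by exact_mod_cast hΩpos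
  have k1 : (P : ℝ) ≤ 2 * X := by exact_mod_cast hgood
  have k2 : (8 : ℝ) * Y ≤ Ω := by exact_mod_cast hneg8
  have k3 : (Y : ℝ) + Y' = Ω := by exact_mod_cast hnot
  have k4 : (X : ℝ) * Y' ≤ P * Y + 1 / 4 * (P * Ω) := by
    push_cast at hmain
    refine hmain.trans ?_
    have := mul_le_mul_of_nonneg_right hε (by positivity : (0 : ℝ) ≤ (P : ℝ) * Ω)
    push_cast at this
    linarith
  have k5 : (7 / 8 : ℝ) * Ω ≤ Y' := by linarith
  have k6 : (P / 2 : ℝ) * (7 / 8 * Ω) ≤ X * Y' :=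
    mul_le_mul (by linarith) k5 (by positivity) (by positivity)
  have k7 : (P : ℝ) * Y ≤ P * (Ω / 8) := mul_le_mul_of_nonneg_left (by linarith) hPr.le
  have k8 : (0 : ℝ) < P * Ω := by positivity
  nlinarith

theorem NoMono_aux {l L c b : ℕ} (hl : 1 ≤ l) (hL : 1 ≤ L) (hc : c = 2 ^ 8 * l ^ 2 * L)
    (hb : b = 2 ^ 11 * l ^ 2 * L) (hcb : 4 * (c * b) ≤ 2 ^ L)
    (F : SimpleGraph (Fin c × Fin b) → Prop)
    (hF : MonoSize (2 ^ (4 * l)) F)
    (hpos : ∀ p : Fin c → Fin b, F (cq (tr p)))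
    (hneg : ∀ x : SimpleGraph (Fin c × Fin b), x.CliqueFree c → ¬ F x) : False := by
  have hcb1 : 1 ≤ c * b := by
    rw [hc, hb]
    exact Nat.one_le_iff_ne_zero.2 (by positivity)
  have hcb3 : c * b + 1 ≤ 2 ^ L := by omega
  have : NeZero (16 * l ^ 2) := ⟨by positivity⟩
  refine no_mono (c := c) (b := b) (Q := 16 * l ^ 2) (m := 4 * l) (h := 16 * (l * L))
    (S := 2 ^ (4 * l)) (by omega) ?_ ?_ ?_ ?_ ?_ ?_ F hF hpos hneg
  · have : 1 ≤ l * L := Nat.one_le_iff_ne_zero.2 (by positivity)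
    omega
  · exact le_of_eq (by ring)
  · rw [hb]
    exact le_of_eq (by ring)
  · have h1 : 2 * (16 * l ^ 2) * (L + 1) + 1 ≤ c := by
      have h2 : 1 ≤ l ^ 2 * L := Nat.one_le_iff_ne_zero.2 (by positivity)
      calc 2 * (16 * l ^ 2) * (L + 1) + 1 ≤ 2 * (16 * l ^ 2) * (L + L) + l ^ 2 * L :=
            Nat.add_le_add (Nat.mul_le_mul_left _ (by omega)) h2
        _ = 65 * (l ^ 2 * L) := by ring
        _ ≤ 2 ^ 8 * (l ^ 2 * L) := Nat.mul_le_mul_right _ (by norm_num)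
        _ = c := by
            rw [hc]
            ring
    have h3 := NP.clique_count (n := 4 * (c * b)) (k := c) (l := L) (Q := 16 * l ^ 2)
      (Nat.one_le_iff_ne_zero.2 (by positivity)) hcb h1
    have h4 : 1 ≤ c := by omega
    have h5 : 8 ≤ 2 * 4 ^ c := by
      calc 8 = 2 * 4 ^ 1 := rfl
        _ ≤ 2 * 4 ^ c := Nat.mul_le_mul_left _ (Nat.pow_le_pow_right (by norm_num) h4)
    have h7 : ∀ y z : ℕ, 2 * (4 * y) ^ z = 2 * 4 ^ z * y ^ z := fun y z => by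
      rw [mul_pow, mul_assoc]
    have h6 : 2 * (4 * (c * b)) ^ c = 2 * 4 ^ c * (c * b) ^ c := h7 _ _
    rw [h6] at h3
    exact le_trans (Nat.mul_le_mul_right _ (Nat.mul_le_mul_right _ h5)) h3
  · -- the first error term
    have h1 : (4 * l + 1) ^ 2 ≤ 2 ^ (8 * l) := by
      have h2 : 4 * l + 1 ≤ 2 ^ (4 * l) := Nat.lt_two_pow_self
      calc (4 * l + 1) ^ 2 ≤ (2 ^ (4 * l)) ^ 2 := Nat.pow_le_pow_left h2 2
        _ = 2 ^ (8 * l) := by
            rw [← pow_mul]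
            congr 1
            ring
    calc 8 * (2 ^ (4 * l) * ((4 * l + 1) ^ 2 * 2 ^ (4 * l)))
        ≤ 2 ^ 3 * (2 ^ (4 * l) * (2 ^ (8 * l) * 2 ^ (4 * l))) :=
          Nat.mul_le_mul (by norm_num) (Nat.mul_le_mul_left _ (Nat.mul_le_mul_right _ h1))
      _ = 2 ^ (3 + (4 * l + (8 * l + 4 * l))) := by rw [pow_add, pow_add, pow_add]
      _ ≤ 2 ^ (5 * (4 * l + 1)) := Nat.pow_le_pow_right (by norm_num) (by omega)
      _ = 32 ^ (4 * l + 1) := by
          rw [pow_mul]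
          norm_num
  · -- the second error term
    have h1 : l * 1 ≤ l * L := Nat.mul_le_mul_left _ hL
    calc 8 * (2 ^ (4 * l) * (c * b + 1) ^ (4 * l))
        ≤ 2 ^ 3 * (2 ^ (4 * l) * (2 ^ L) ^ (4 * l)) :=
          Nat.mul_le_mul (by norm_num) (Nat.mul_le_mul_left _ (Nat.pow_le_pow_left hcb3 _))
      _ = 2 ^ (3 + (4 * l + 4 * (l * L))) := by
          rw [← pow_mul, pow_add, pow_add]
          congr 3
          ring
      _ ≤ 2 ^ (16 * (l * L)) := Nat.pow_le_pow_right (by norm_num) (by omega)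

theorem no_mono' {l L : ℕ} (hl : 1 ≤ l) (hL : 1 ≤ L)
    (hcb : 4 * (2 ^ 8 * l ^ 2 * L * (2 ^ 11 * l ^ 2 * L)) ≤ 2 ^ L)
    (F : SimpleGraph (Fin (2 ^ 8 * l ^ 2 * L) × Fin (2 ^ 11 * l ^ 2 * L)) → Prop)
    (hF : MonoSize (2 ^ (4 * l)) F)
    (hpos : ∀ p : Fin (2 ^ 8 * l ^ 2 * L) → Fin (2 ^ 11 * l ^ 2 * L), F (cq (tr p)))
    (hneg : ∀ x : SimpleGraph (Fin (2 ^ 8 * l ^ 2 * L) × Fin (2 ^ 11 * l ^ 2 * L)),
      x.CliqueFree (2 ^ 8 * l ^ 2 * L) → ¬ F x) : False := by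
  exact NoMono_aux hl hL rfl rfl hcb F hF hpos hneg

end Pool.Agent.H9.AM
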