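import Pool.Agent.H9.AM.Hits
import Pool.Agent.H9.AM.Link
import Pool.Agent.H9.AM.NoMono

/-!
# The lower bound
-/

namespace Pool.Agent.H9.AM

open Finset
open Pool.Agent.H25 Pool.Agent.H25.NM Pool.Agent.H9.NW

theorem MonoSize_le {V : Type} {S S' : ℕ} {F : SimpleGraph V → Prop} (h : MonoSize S F)
    (hS : S ≤ S') : MonoSize S' F := by
  obtain ⟨g, hg, i, hi, hgi⟩ := h
  refine ⟨fun j x => if j < S then g j x else False, ?_, i, hi.trans_le hS, fun x => ?_⟩
  · intro j _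
    by_cases hj : j < S
    · rcases hg j hj with ⟨y, z, h1⟩ | h1 | ⟨j', k', hj', hk', h1⟩ | ⟨T, hT, h1⟩
      · exact Or.inl ⟨y, z, fun x => by simp only [if_pos hj]; exact h1 x⟩
      · exact Or.inr (Or.inl fun x => by simp only [if_pos hj]; exact h1 x)
      · refine Or.inr (Or.inr (Or.inl ⟨j', k', hj', hk', fun x => ?_⟩))
        simp only [if_pos hj, if_pos (hj'.trans hj), if_pos (hk'.trans hj)]
        exact h1 x
      · refine Or.inr (Or.inr (Or.inr ⟨T, hT, fun x => ?_⟩))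
        simp only [if_pos hj]
        rw [h1]
        refine exists_congr fun k' => and_congr_right fun hk' => ?_
        simp only [if_pos ((hT k' hk').trans hj)]
    · exact MGate.of_false fun x => by simp only [if_neg hj, not_false_iff]
  · simp only [if_pos hi]
    exact hgi x

theorem lower {n L l k w q s : ℕ} (hL : 1 ≤ L) (hLl : L ≤ l) (hnL : n ≤ 2 ^ L)
    (hs : s ≤ 2 ^ l) (hk : 2 ^ 26 * ((q + 1) * l * L) ^ 4 * L ^ 2 ≤ k) (hkn : 2 * k ≤ n)
    (C : Circuit n s) (out : Fin s) (hC : C.AlmostMonotone w q)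
    (hdec : ∀ G, C.fn out G ↔ ¬ G.CliqueFree k) :
    n ^ 2 < 2 ^ 88 * ((q + 1) * l * L) ^ 12 * L ^ 6 * (w + 1) := by
  classical
  by_contra hcon
  push Not at hcon
  have hl : 1 ≤ l := hL.trans hLl
  set y := (q + 1) * l * L with hy
  have hy1 : 1 ≤ y := Nat.one_le_iff_ne_zero.2 (by positivity)
  have hly : l ≤ y := by
    calc l = 1 * l * 1 := by ring
      _ ≤ (q + 1) * l * L := Nat.mul_le_mul (Nat.mul_le_mul_right _ (by omega)) hL
  set l' := 5 * y with hl'
  have hl'1 : 1 ≤ l' := by omega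
  set c := 2 ^ 8 * l' ^ 2 * L with hc
  set b := 2 ^ 11 * l' ^ 2 * L with hb
  set A := 2 ^ 27 * l' ^ 6 * L ^ 3 with hA
  set t := n / (2 * A) with htdef
  have hA1 : 1 ≤ A := by
    rw [hA]
    exact Nat.one_le_iff_ne_zero.2 (by positivity)
  have hcA : ∀ z, c * (c * (b * z)) = A * z := by
    intro z
    rw [hc, hb, hA]
    ring
  have hA2 : 64 * (A * A) * (w + 1) ≤ n ^ 2 := by
    refine le_trans ?_ hcon
    have h1 : 64 * (A * A) = 64 * 2 ^ 54 * 5 ^ 12 * (y ^ 12 * L ^ 6) := by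
      rw [hA, hl']
      ring
    have h2 : 2 ^ 88 * y ^ 12 * L ^ 6 = 2 ^ 88 * (y ^ 12 * L ^ 6) := by ring
    rw [h1, h2]
    refine Nat.mul_le_mul_right _ (Nat.mul_le_mul_right _ ?_)
    norm_num
  have h8A : 8 * A ≤ n := by
    by_contra hlt
    push Not at hlt
    have h1 : n * n < (8 * A) * (8 * A) := Nat.mul_self_lt_mul_self hlt
    have h2 : n ^ 2 = n * n := sq n
    have h3 : 64 * (A * A) * 1 ≤ 64 * (A * A) * (w + 1) := Nat.mul_le_mul_left _ (by omega)
    have h4 : (8 * A) * (8 * A) = 64 * (A * A) * 1 := by ring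
    omega
  have ht1 : 2 * A * t ≤ n := Nat.mul_div_le _ _
  have ht2 : n < 2 * A * (t + 1) := Nat.lt_mul_div_succ _ (by omega)
  have ht3 : 16 * (w + 1) < (t + 1) * (t + 1) := by
    have h1 : n * n < (2 * A * (t + 1)) * (2 * A * (t + 1)) := Nat.mul_self_lt_mul_self ht2
    have h2 : n ^ 2 = n * n := sq n
    have h3 : (2 * A * (t + 1)) * (2 * A * (t + 1)) = 4 * (A * A) * ((t + 1) * (t + 1)) := by ring
    have h4 : 64 * (A * A) * (w + 1) = 4 * (A * A) * (16 * (w + 1)) := by ring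
    have h5 : 4 * (A * A) * (16 * (w + 1)) < 4 * (A * A) * ((t + 1) * (t + 1)) := by omega
    exact Nat.lt_of_mul_lt_mul_left h5
  have hw : 2 * w ≤ t * t := by
    by_contra hlt
    push Not at hlt
    have h1 : (t + 1) * (t + 1) ≤ 2 * (t * t) + 2 := by nlinarith [sq_nonneg ((t : ℤ) - 1)]
    omega
  have ht : 0 < t := by
    rcases Nat.eq_zero_or_pos t with h | h
    · exfalso
      rw [h] at ht3
      omega
    · exact h
  have hck : c * c ≤ k := by
    refine le_trans ?_ hk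
    have h1 : c * c = 2 ^ 16 * 625 * (y ^ 4 * L ^ 2) := by
      rw [hc, hl']
      ring
    have h2 : 2 ^ 26 * y ^ 4 * L ^ 2 = 2 ^ 26 * (y ^ 4 * L ^ 2) := by ring
    rw [h1, h2]
    exact Nat.mul_le_mul_right _ (by norm_num)
  obtain ⟨u, hu⟩ : ∃ u, k = c * c + u := Nat.exists_eq_add_of_le hck
  have hc1 : 2 ^ 8 ≤ c := by
    rw [hc, mul_assoc]
    exact Nat.le_mul_of_pos_right _ (by positivity)
  have hcb : 4 * (c * b) ≤ 8 * A := by
    have h1 : A = c * (c * b) := by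
      have := hcA 1
      rw [mul_one, mul_one] at this
      exact this.symm
    have h2 : 1 * (c * b) ≤ c * (c * b) := Nat.mul_le_mul_right _ (by omega)
    rw [h1]
    omega
  obtain ⟨ι⟩ : Nonempty (Vx c b t u 0 ↪ Fin n) := by
    refine Function.Embedding.nonempty_of_card_le ?_
    simp only [Fintype.card_sum, Fintype.card_prod, Fintype.card_fin]
    rw [hcA]
    have : 2 * (A * t) ≤ n := by
      calc 2 * (A * t) = 2 * A * t := by ring
        _ ≤ n := ht1
    omega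
  set f := frame (∅ : Finset (Fin 0 × Fin 0)) ι with hf
  obtain ⟨Vs, lev, hV1, hV2⟩ := hC
  have hcard : Fintype.card (Fin t × Fin t) = t * t := by
    rw [Fintype.card_prod, Fintype.card_fin]
  have : Nonempty (Fin t × Fin t) := ⟨(⟨0, ht⟩, ⟨0, ht⟩)⟩
  obtain ⟨ρ, hρ⟩ := exists_hits (l := l) f Vs (fun i => (hV1 i).1) (by rw [hcard]; exact hw) hs
  have hends : ∀ e e' : Pr c b, s((f.ends e).1, (f.ends e).2) = s((f.ends e').1, (f.ends e').2) →
      e = e' := by
    intro e e' h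
    rw [Sym2.eq_iff] at h
    have h1 := e.2
    have h2 := e'.2
    rcases h with ⟨g1, g2⟩ | ⟨g1, g2⟩
    · exact Subtype.ext (Prod.ext g1 g2)
    · exfalso
      change e.1.1 = e'.1.2 at g1
      change e.1.2 = e'.1.1 at g2
      rw [g1, g2] at h1
      exact lt_irrefl _ (h1.trans h2)
  have hmono : ∀ G H : SimpleGraph (Fin n), G ≤ H → C.fn out G → C.fn out H := by
    intro G H hGH hG
    rw [hdec] at hG ⊢
    exact fun h => hG (h.anti hGH)
  have hsize := link f hends ρ C Vs lev (fun i => ⟨(hV1 i).2.1, (hV1 i).2.2⟩) hV2 (p := l + 1)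
    (fun i => hρ i) (by omega) out hmono
  set K := Fintype.card (Pr c b) with hK
  set S₀ := (3 * s + 3) * (8 * K + 1) ^ ((l + 1) * (q + 1)) with hS₀
  have hKle : K ≤ c * b * (c * b) := by
    refine (Fintype.card_subtype_le _).trans ?_
    simp only [Fintype.card_prod, Fintype.card_fin]
    exact le_refl _
  have h8K : 8 * K + 1 ≤ 2 ^ (2 * L) := by
    have h1 : (4 * (c * b)) * (4 * (c * b)) ≤ 2 ^ L * 2 ^ L :=
      Nat.mul_le_mul ((hcb.trans h8A).trans hnL) ((hcb.trans h8A).trans hnL)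
    have h2 : (4 * (c * b)) * (4 * (c * b)) = 16 * (c * b * (c * b)) := by ring
    have h3 : 1 ≤ c * b * (c * b) := Nat.one_le_iff_ne_zero.2 (by positivity)
    have h4 : 2 ^ (2 * L) = 2 ^ L * 2 ^ L := by rw [two_mul, pow_add]
    omega
  have hS₀le : S₀ ≤ 2 ^ (8 * y) := by
    have h1 : 3 * s + 3 ≤ 2 ^ (l + 3) := by
      have h2 : 1 ≤ 2 ^ l := Nat.one_le_two_pow
      rw [pow_add]
      omega
    have h2 : (8 * K + 1) ^ ((l + 1) * (q + 1)) ≤ 2 ^ (4 * y) := by
      calc (8 * K + 1) ^ ((l + 1) * (q + 1)) ≤ (2 ^ (2 * L)) ^ ((l + 1) * (q + 1)) :=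
            Nat.pow_le_pow_left h8K _
        _ = 2 ^ (2 * L * ((l + 1) * (q + 1))) := by rw [← pow_mul]
        _ ≤ 2 ^ (4 * y) := by
            refine Nat.pow_le_pow_right (by norm_num) ?_
            calc 2 * L * ((l + 1) * (q + 1)) ≤ 2 * L * ((l + l) * (q + 1)) :=
                  Nat.mul_le_mul_left _ (Nat.mul_le_mul_right _ (by omega))
              _ = 4 * y := by
                  rw [hy]
                  ring
    calc S₀ ≤ 2 ^ (l + 3) * 2 ^ (4 * y) := Nat.mul_le_mul h1 h2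
      _ = 2 ^ (l + 3 + 4 * y) := by rw [← pow_add]
      _ ≤ 2 ^ (8 * y) := Nat.pow_le_pow_right (by norm_num) (by omega)
  have hS₁ : S₀ * (S₀ + 1) ≤ 2 ^ (4 * l') := by
    have h1 : S₀ + 1 ≤ 2 ^ (8 * y + 1) := by
      have : 1 ≤ 2 ^ (8 * y) := Nat.one_le_two_pow
      rw [pow_succ]
      omega
    calc S₀ * (S₀ + 1) ≤ 2 ^ (8 * y) * 2 ^ (8 * y + 1) := Nat.mul_le_mul hS₀le h1
      _ = 2 ^ (8 * y + (8 * y + 1)) := by rw [← pow_add]
      _ ≤ 2 ^ (4 * l') := Nat.pow_le_pow_right (by norm_num) (by omega)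
  have h3 : 3 ≤ c * c + u := by
    have : 1 * 2 ^ 8 ≤ c * c := Nat.mul_le_mul (by omega) hc1
    omega
  refine no_mono' hl'1 hL ((hcb.trans h8A).trans hnL) (fun x => C.fn out (f.gr ρ x))
    (MonoSize_le hsize hS₁) ?_ ?_
  · intro p
    show C.fn out (f.gr ρ (cq (tr p)))
    rw [hdec, hu]
    exact frame_planted ι h3 ht p
  · intro x hx
    rw [hdec, not_not, hu]
    exact frame_cliqueFree ι h3 hx

end Pool.Agent.H9.AM
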