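import Mathlib

/-!
# Monotone programs on subsets of a finite set
-/

namespace Pool.Agent.H9.AM

open Finset

section

variable {E : Type}

/-- Member `i` of the sequence tests an element, or it is a conjunction or disjunction of
earlier members. -/
def WG (g : ℕ → Finset E → Prop) (i : ℕ) : Prop :=
  (∃ e, ∀ X, g i X ↔ e ∈ X) ∨
  (∃ S : Finset ℕ, (∀ j ∈ S, j < i) ∧ ∀ X, g i X ↔ ∀ j ∈ S, g j X) ∨
  (∃ S : Finset ℕ, (∀ j ∈ S, j < i) ∧ ∀ X, g i X ↔ ∃ j ∈ S, g j X)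

/-- All members of `𝓐` are computed by one monotone program with `S` gates. -/
def Comp (S : ℕ) (𝓐 : Set (Finset E → Prop)) : Prop :=
  ∃ g : ℕ → Finset E → Prop, (∀ i < S, WG g i) ∧ ∀ φ ∈ 𝓐, ∃ i < S, g i = φ

/-- `φ` is computed by one gate from members of `𝓐`. -/
def Over (𝓐 : Set (Finset E → Prop)) (φ : Finset E → Prop) : Prop :=
  (∃ e, ∀ X, φ X ↔ e ∈ X) ∨
  (∃ T : Set (Finset E → Prop), T ⊆ 𝓐 ∧ ∀ X, φ X ↔ ∀ ψ ∈ T, ψ X) ∨
  (∃ T : Set (Finset E → Prop), T ⊆ 𝓐 ∧ ∀ X, φ X ↔ ∃ ψ ∈ T, ψ X)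

theorem Comp.empty : Comp (E := E) 0 ∅ :=
  ⟨fun _ _ => True, fun i hi => absurd hi (Nat.not_lt_zero i), fun φ hφ => absurd hφ (by simp)⟩

theorem Comp.subset {S : ℕ} {𝓐 𝓑 : Set (Finset E → Prop)} (h : Comp S 𝓐) (hB : 𝓑 ⊆ 𝓐) :
    Comp S 𝓑 := by
  obtain ⟨g, h1, h2⟩ := h
  exact ⟨g, h1, fun φ hφ => h2 φ (hB hφ)⟩

theorem Over.mono {𝓐 𝓑 : Set (Finset E → Prop)} {φ : Finset E → Prop} (h : Over 𝓐 φ)
    (hB : 𝓐 ⊆ 𝓑) : Over 𝓑 φ := by
  rcases h with h | ⟨T, hT, h⟩ | ⟨T, hT, h⟩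
  · exact Or.inl h
  · exact Or.inr (Or.inl ⟨T, hT.trans hB, h⟩)
  · exact Or.inr (Or.inr ⟨T, hT.trans hB, h⟩)

theorem Comp.add_one {S : ℕ} {𝓐 : Set (Finset E → Prop)} (h : Comp S 𝓐)
    {φ : Finset E → Prop} (hφ : Over 𝓐 φ) : Comp (S + 1) (insert φ 𝓐) := by
  classical
  obtain ⟨g, h1, h2⟩ := h
  obtain ⟨g', hold, hnew⟩ : ∃ g' : ℕ → Finset E → Prop, (∀ j < S, g' j = g j) ∧ g' S = φ :=
    ⟨fun i => if i = S then φ else g i, fun j hj => if_neg hj.ne, if_pos rfl⟩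
  refine ⟨g', ?_, ?_⟩
  · intro i hi
    rcases Nat.lt_succ_iff_lt_or_eq.1 hi with hi | rfl
    · rcases h1 i hi with ⟨e, he⟩ | ⟨T, hT, he⟩ | ⟨T, hT, he⟩
      · refine Or.inl ⟨e, ?_⟩
        rw [hold i hi]
        exact he
      · refine Or.inr (Or.inl ⟨T, hT, fun X => ?_⟩)
        rw [hold i hi, he]
        exact forall₂_congr fun j hj => by rw [hold j ((hT j hj).trans hi)]
      · refine Or.inr (Or.inr ⟨T, hT, fun X => ?_⟩)
        rw [hold i hi, he]
        exact exists_congr fun j => and_congr_right fun hj => by rw [hold j ((hT j hj).trans hi)]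
    · rcases hφ with ⟨e, he⟩ | ⟨T, hT, he⟩ | ⟨T, hT, he⟩
      · refine Or.inl ⟨e, ?_⟩
        rw [hnew]
        exact he
      · refine Or.inr (Or.inl ⟨(range i).filter fun j => g j ∈ T, ?_, fun X => ?_⟩)
        · intro j hj
          exact mem_range.1 (mem_filter.1 hj).1
        · rw [hnew, he]
          constructor
          · intro h j hj
            have hj' := mem_filter.1 hj
            rw [hold j (mem_range.1 hj'.1)]
            exact h _ hj'.2
          · intro h ψ hψ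
            obtain ⟨j, hj, rfl⟩ := h2 ψ (hT hψ)
            have := h j (mem_filter.2 ⟨mem_range.2 hj, hψ⟩)
            rwa [hold j hj] at this
      · refine Or.inr (Or.inr ⟨(range i).filter fun j => g j ∈ T, ?_, fun X => ?_⟩)
        · intro j hj
          exact mem_range.1 (mem_filter.1 hj).1
        · rw [hnew, he]
          constructor
          · rintro ⟨ψ, hψ, h⟩
            obtain ⟨j, hj, rfl⟩ := h2 ψ (hT hψ)
            exact ⟨j, mem_filter.2 ⟨mem_range.2 hj, hψ⟩, by rw [hold j hj]; exact h⟩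
          · rintro ⟨j, hj, h⟩
            have hj' := mem_filter.1 hj
            rw [hold j (mem_range.1 hj'.1)] at h
            exact ⟨_, hj'.2, h⟩
  · intro ψ hψ
    rcases hψ with rfl | hψ
    · exact ⟨S, by omega, hnew⟩
    · obtain ⟨j, hj, rfl⟩ := h2 ψ hψ
      exact ⟨j, by omega, hold j hj⟩

/-- Adding a finite family of gates. -/
theorem Comp.add {S : ℕ} {𝓐 : Set (Finset E → Prop)} (h : Comp S 𝓐)
    (𝓑 : Finset (Finset E → Prop)) (hB : ∀ φ ∈ 𝓑, Over 𝓐 φ) :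
    Comp (S + 𝓑.card) (𝓐 ∪ (𝓑 : Set (Finset E → Prop))) := by
  classical
  induction 𝓑 using Finset.induction_on with
  | empty => simpa using h
  | insert φ 𝓑 hφ ih =>
    have h1 := ih fun ψ hψ => hB ψ (mem_insert_of_mem hψ)
    have h2 := h1.add_one ((hB φ (mem_insert_self _ _)).mono Set.subset_union_left)
    rw [card_insert_of_notMem hφ, ← add_assoc]
    refine h2.subset ?_
    rw [coe_insert, Set.union_insert]

theorem Comp.le {S S' : ℕ} {𝓐 : Set (Finset E → Prop)} (h : Comp S 𝓐) (hS : S ≤ S') :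
    Comp S' 𝓐 := by
  obtain ⟨d, rfl⟩ := Nat.exists_eq_add_of_le hS
  clear hS
  induction d with
  | zero => exact h
  | succ d ih =>
    have h1 : Over 𝓐 fun _ => True := Or.inr (Or.inl ⟨∅, by simp, by simp⟩)
    have := ih.add_one h1
    exact this.subset (Set.subset_insert _ _)

end

end Pool.Agent.H9.AM
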