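import Mathlib

/-!
# Restrictions of almost monotone functions: exact monotone recursion
-/

namespace Pool.Agent.H9.AM

open Finset

section

variable {E : Type} [DecidableEq E]

/-- The input `X` with the elements of `A` added and the elements of `B` removed. -/
def ov (A B X : Finset E) : Finset E := (X ∪ A) \ B

/-- `φ` is monotone in the elements outside `W`. -/
def MonoOut (W : Finset E) (φ : Finset E → Prop) : Prop :=
  ∀ X Y, X ⊆ Y → (∀ e ∈ W, e ∈ Y → e ∈ X) → φ X → φ Y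

theorem mem_ov {A B X : Finset E} {e : E} : e ∈ ov A B X ↔ (e ∈ X ∨ e ∈ A) ∧ e ∉ B := by
  unfold ov
  rw [mem_sdiff, mem_union]

theorem ov_split {A B R X : Finset E} (hR : Disjoint R (A ∪ B)) :
    ov (A ∪ (R ∩ X)) (B ∪ (R \ (R ∩ X))) X = ov A B X := by
  ext e
  rw [mem_ov, mem_ov]
  have h : e ∈ R → e ∉ A ∪ B := fun h1 h2 => (Finset.disjoint_left.1 hR h1) h2
  simp only [mem_union, mem_inter, mem_sdiff, not_or, not_and, not_not] at *
  tauto

theorem MonoOut.ov_mono {W A B : Finset E} {φ : Finset E → Prop} (h : MonoOut W φ)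
    (hW : W ⊆ A ∪ B) {X Y : Finset E} (hXY : X ⊆ Y) (hX : φ (ov A B X)) : φ (ov A B Y) := by
  refine h _ _ ?_ ?_ hX
  · intro e he
    rw [mem_ov] at he ⊢
    exact ⟨he.1.imp_left fun h => hXY h, he.2⟩
  · intro e he heY
    rw [mem_ov] at heY ⊢
    rcases mem_union.1 (hW he) with h1 | h1
    · exact ⟨Or.inr h1, heY.2⟩
    · exact absurd h1 heY.2

/-- Lowering the elements of a set `R` of free elements: from the lower input to `ov A B X`. -/
theorem MonoOut.up {W A B R T X : Finset E} {φ : Finset E → Prop} (h : MonoOut W φ)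
    (hW : W ⊆ A ∪ B) (hR : Disjoint R (A ∪ B)) (hT : T ⊆ R) (hTX : T ⊆ X)
    (hX : φ (ov (A ∪ T) (B ∪ (R \ T)) X)) : φ (ov A B X) := by
  refine h _ _ ?_ ?_ hX
  · intro e he
    rw [mem_ov] at he ⊢
    simp only [mem_union, not_or] at he
    rcases he.1 with h1 | h1 | h1
    · exact ⟨Or.inl h1, he.2.1⟩
    · exact ⟨Or.inr h1, he.2.1⟩
    · exact ⟨Or.inl (hTX h1), he.2.1⟩
  · intro e he heX
    rw [mem_ov] at heX ⊢
    have h1 : e ∉ R := fun h2 => Finset.disjoint_left.1 hR h2 (hW he)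
    simp only [mem_union, mem_sdiff, not_or]
    refine ⟨heX.1.imp_right fun h2 => Or.inl h2, heX.2, fun h2 => h1 h2.1⟩

/-- Raising the elements of `R`: from `ov A B X` to the higher input. -/
theorem MonoOut.down {W A B R T X : Finset E} {φ : Finset E → Prop} (h : MonoOut W φ)
    (hW : W ⊆ A ∪ B) (hR : Disjoint R (A ∪ B)) (hT : T ⊆ R) (hTX : ∀ e ∈ R \ T, e ∉ X)
    (hX : φ (ov A B X)) : φ (ov (A ∪ T) (B ∪ (R \ T)) X) := by
  refine h _ _ ?_ ?_ hX
  · intro e he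
    rw [mem_ov] at he ⊢
    simp only [mem_union, not_or]
    refine ⟨he.1.imp_right fun h2 => Or.inl h2, he.2, fun h2 => ?_⟩
    rcases he.1 with h3 | h3
    · exact hTX e h2 h3
    · exact Finset.disjoint_left.1 hR (mem_sdiff.1 h2).1 (mem_union_left _ h3)
  · intro e he heX
    rw [mem_ov] at heX ⊢
    have h1 : e ∉ R := fun h2 => Finset.disjoint_left.1 hR h2 (hW he)
    simp only [mem_union, not_or] at heX
    refine ⟨?_, heX.2.1⟩
    rcases heX.1 with h2 | h2 | h2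
    · exact Or.inl h2
    · exact Or.inr h2
    · exact absurd (hT h2) h1

theorem or_id {ι : Type} (I : Set ι) {φ : Finset E → Prop} {ψ : ι → Finset E → Prop}
    (hφ : ∀ X, φ X ↔ ∃ j ∈ I, ψ j X) {W A B : Finset E} (hW : MonoOut W φ)
    (hWA : W ⊆ A ∪ B) (R : ι → Finset E) (hR : ∀ j ∈ I, Disjoint (R j) (A ∪ B))
    (X : Finset E) : φ (ov A B X) ↔
      ∃ j ∈ I, ∃ T, T ⊆ R j ∧ T ⊆ X ∧ ψ j (ov (A ∪ T) (B ∪ (R j \ T)) X) := by
  constructor
  · intro h
    obtain ⟨j, hj, h1⟩ := (hφ _).1 h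
    refine ⟨j, hj, R j ∩ X, inter_subset_left, inter_subset_right, ?_⟩
    rw [ov_split (hR j hj)]
    exact h1
  · rintro ⟨j, hj, T, hT, hTX, h1⟩
    exact hW.up hWA (hR j hj) hT hTX ((hφ _).2 ⟨j, hj, h1⟩)

theorem and_id {ι : Type} (I : Set ι) {φ : Finset E → Prop} {ψ : ι → Finset E → Prop}
    (hφ : ∀ X, φ X ↔ ∀ j ∈ I, ψ j X) {W A B : Finset E} (hW : MonoOut W φ)
    (hWA : W ⊆ A ∪ B) (R : ι → Finset E) (hR : ∀ j ∈ I, Disjoint (R j) (A ∪ B))
    (X : Finset E) : φ (ov A B X) ↔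
      ∀ j ∈ I, ∀ T, T ⊆ R j → (∃ e ∈ R j \ T, e ∈ X) ∨
        ψ j (ov (A ∪ T) (B ∪ (R j \ T)) X) := by
  constructor
  · intro h j hj T hT
    by_cases hex : ∃ e ∈ R j \ T, e ∈ X
    · exact Or.inl hex
    · push Not at hex
      exact Or.inr ((hφ _).1 (hW.down hWA (hR j hj) hT hex h) j hj)
  · intro h
    refine (hφ _).2 fun j hj => ?_
    rcases h j hj (R j ∩ X) inter_subset_left with ⟨e, he, heX⟩ | h1
    · exact absurd (mem_inter.2 ⟨(mem_sdiff.1 he).1, heX⟩) (mem_sdiff.1 he).2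
    · rw [ov_split (hR j hj)] at h1
      exact h1

theorem not_id {φ ψ : Finset E → Prop} (hφ : ∀ X, φ X ↔ ¬ ψ X) {W W' A B R : Finset E}
    (hW : MonoOut W φ) (hW' : MonoOut W' ψ) (hWA : W ⊆ A ∪ B) (hWR : W' ⊆ A ∪ B ∪ R)
    (hR : Disjoint R (A ∪ B)) (X : Finset E) : φ (ov A B X) ↔
      ∃ T, T ⊆ R ∧ T ⊆ X ∧ φ (ov (A ∪ T) (B ∪ (R \ T)) ∅) := by
  -- the restricted functions are constant
  have hconst : ∀ T, T ⊆ R → ∀ Y, φ (ov (A ∪ T) (B ∪ (R \ T)) Y) ↔
      φ (ov (A ∪ T) (B ∪ (R \ T)) ∅) := by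
    intro T hT Y
    have e1 : A ∪ T ∪ (B ∪ (R \ T)) = A ∪ B ∪ R := by
      ext e
      simp only [mem_union, mem_sdiff]
      have := @hT e
      tauto
    have h1 : W ⊆ A ∪ T ∪ (B ∪ (R \ T)) := by
      rw [e1]
      exact hWA.trans subset_union_left
    have h2 : W' ⊆ A ∪ T ∪ (B ∪ (R \ T)) := by
      rw [e1]
      exact hWR
    constructor
    · intro h
      rw [hφ] at h ⊢
      exact fun h3 => h (hW'.ov_mono h2 (empty_subset Y) h3)
    · intro h
      exact hW.ov_mono h1 (empty_subset Y) h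
  constructor
  · intro h
    refine ⟨R ∩ X, inter_subset_left, inter_subset_right, ?_⟩
    rw [← hconst _ inter_subset_left X, ov_split hR]
    exact h
  · rintro ⟨T, hT, hTX, h1⟩
    exact hW.up hWA hR hT hTX ((hconst T hT X).2 h1)

end

end Pool.Agent.H9.AM
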