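import Mathlib

/-!
# The number of triples of subsets with a small union

PROOF. Let `K = card E`. Let `D : (Fin r → Option (E × Bool × Bool × Bool)) → Finset E × Finset E × Finset E`
send `g` to `({e | ∃ i x y, g i = some (e, true, x, y)}, {e | ∃ i x y, g i = some (e, x, true, y)},
{e | ∃ i x y, g i = some (e, x, y, true)})`. Every triple `(A, B, T)` with
`(A ∪ B ∪ T).card ≤ r` is in the range of `D`: enumerate the union `U` by
`U.equivFin` (or `Finset.toList`), put `g i = some (e_i, e_i ∈ A, e_i ∈ B, e_i ∈ T)` for
`i < U.card` and `none` otherwise. So the cardinality is at most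
`card (Fin r → Option (E × Bool × Bool × Bool)) = (8 K + 1) ^ r`
(`Finset.card_le_card_of_surjOn` or `Finset.card_le_card` into an image and `Finset.card_image_le`).
-/

namespace Pool.Agent.H9.AM

open Finset

theorem card_triples {E : Type} [Fintype E] [DecidableEq E] (r : ℕ) :
    (univ.filter fun t : Finset E × Finset E × Finset E =>
      (t.1 ∪ t.2.1 ∪ t.2.2).card ≤ r).card ≤ (8 * Fintype.card E + 1) ^ r := by
  classical
  let D : (Fin r → Option (E × Bool × Bool × Bool)) → Finset E × Finset E × Finset E := fun g =>
    (univ.filter fun e => ∃ i x y, g i = some (e, true, x, y),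
     univ.filter fun e => ∃ i x y, g i = some (e, x, true, y),
     univ.filter fun e => ∃ i x y, g i = some (e, x, y, true))
  have hsub : (univ.filter fun t : Finset E × Finset E × Finset E =>
      (t.1 ∪ t.2.1 ∪ t.2.2).card ≤ r) ⊆ univ.image D := by
    rintro ⟨A, B, T⟩ ht
    have hU : (A ∪ B ∪ T).card ≤ r := (mem_filter.1 ht).2
    set U := A ∪ B ∪ T with hUdef
    let en := U.equivFin
    refine mem_image.2 ⟨fun i => if h : i.1 < U.card then
      some ((en.symm ⟨i.1, h⟩).1, decide ((en.symm ⟨i.1, h⟩).1 ∈ A),
        decide ((en.symm ⟨i.1, h⟩).1 ∈ B), decide ((en.symm ⟨i.1, h⟩).1 ∈ T)) else none,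
      mem_univ _, ?_⟩
    have key : ∀ e ∈ U, ∃ i : Fin r, ∃ h : i.1 < U.card, (en.symm ⟨i.1, h⟩).1 = e := by
      intro e he
      refine ⟨⟨(en ⟨e, he⟩).1, (en ⟨e, he⟩).2.trans_le hU⟩, (en ⟨e, he⟩).2, ?_⟩
      rw [Fin.eta, Equiv.symm_apply_apply]
    refine Prod.ext ?_ (Prod.ext ?_ ?_)
    · ext e
      show e ∈ univ.filter _ ↔ _
      rw [mem_filter]
      constructor
      · rintro ⟨_, i, x, y, hi⟩
        beta_reduce at hi
        by_cases h : i.1 < U.card
        · rw [dif_pos h, Option.some.injEq, Prod.mk.injEq, Prod.mk.injEq] at hi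
          have h2 := hi.2.1
          rw [decide_eq_true_iff, hi.1] at h2
          exact h2
        · rw [dif_neg h] at hi
          exact absurd hi (by simp)
      · intro he
        obtain ⟨i, h, hi⟩ := key e (mem_union_left _ (mem_union_left _ he))
        refine ⟨mem_univ _, i, decide (e ∈ B), decide (e ∈ T), ?_⟩
        beta_reduce
        rw [dif_pos h, hi, decide_eq_true he]
    · ext e
      show e ∈ univ.filter _ ↔ _
      rw [mem_filter]
      constructor
      · rintro ⟨_, i, x, y, hi⟩
        beta_reduce at hi
        by_cases h : i.1 < U.card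
        · rw [dif_pos h, Option.some.injEq, Prod.mk.injEq, Prod.mk.injEq, Prod.mk.injEq] at hi
          have h2 := hi.2.2.1
          rw [decide_eq_true_iff, hi.1] at h2
          exact h2
        · rw [dif_neg h] at hi
          exact absurd hi (by simp)
      · intro he
        obtain ⟨i, h, hi⟩ := key e (mem_union_left _ (mem_union_right _ he))
        refine ⟨mem_univ _, i, decide (e ∈ A), decide (e ∈ T), ?_⟩
        beta_reduce
        rw [dif_pos h, hi, decide_eq_true he]
    · ext e
      show e ∈ univ.filter _ ↔ _
      rw [mem_filter]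
      constructor
      · rintro ⟨_, i, x, y, hi⟩
        beta_reduce at hi
        by_cases h : i.1 < U.card
        · rw [dif_pos h, Option.some.injEq, Prod.mk.injEq, Prod.mk.injEq, Prod.mk.injEq] at hi
          have h2 := hi.2.2.2
          rw [decide_eq_true_iff, hi.1] at h2
          exact h2
        · rw [dif_neg h] at hi
          exact absurd hi (by simp)
      · intro he
        obtain ⟨i, h, hi⟩ := key e (mem_union_right _ he)
        refine ⟨mem_univ _, i, decide (e ∈ A), decide (e ∈ B), ?_⟩
        beta_reduce
        rw [dif_pos h, hi, decide_eq_true he]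
  refine (card_le_card hsub).trans (card_image_le.trans (le_of_eq ?_))
  rw [card_univ, Fintype.card_fun, Fintype.card_option, Fintype.card_prod, Fintype.card_prod,
    Fintype.card_prod, Fintype.card_bool, Fintype.card_fin]
  congr 1
  ring

end Pool.Agent.H9.AM
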