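import Pool.Agent.H9.AM.SimId
import Pool.Agent.H9.AM.Prog
import Pool.Agent.H9.AM.Triples

/-!
# An almost monotone circuit is simulated by a monotone program
-/

namespace Pool.Agent.H9.AM

open Finset

section

variable {E : Type} [Fintype E] [DecidableEq E] {s p q : ℕ}

/-- Members: literals and monomials. -/
def baseSet (r : ℕ) : Set (Finset E → Prop) :=
  {φ | ∃ e : E, φ = fun X => e ∈ X} ∪ {φ | ∃ T : Finset E, T.card ≤ r ∧ φ = fun X => T ⊆ X}

/-- The restriction `(A, B)` is admissible. -/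
def Adm (W : Finset E) (m : ℕ) (A B : Finset E) : Prop :=
  W ⊆ A ∪ B ∧ (A ∪ B).card ≤ m

/-- The restrictions of `φ`. -/
def resSet (φ : Finset E → Prop) (W : Finset E) (m : ℕ) : Set (Finset E → Prop) :=
  {ψ | ∃ A B, Adm W m A B ∧ ψ = fun X => φ (ov A B X)}

/-- The restrictions of `φ` with a monomial. -/
def andSet (φ : Finset E → Prop) (W : Finset E) (m : ℕ) : Set (Finset E → Prop) :=
  {ψ | ∃ A B T, Adm W m A B ∧ T ⊆ A ∪ B ∧ ψ = fun X => T ⊆ X ∧ φ (ov A B X)}

/-- The restrictions of `φ` with a clause. -/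
def orSet (φ : Finset E → Prop) (W : Finset E) (m : ℕ) : Set (Finset E → Prop) :=
  {ψ | ∃ A B T, Adm W m A B ∧ T ⊆ A ∪ B ∧ ψ = fun X => (∃ e ∈ T, e ∈ X) ∨ φ (ov A B X)}

theorem comp_base {r : ℕ} (hr : 1 ≤ r) :
    Comp (2 * (8 * Fintype.card E + 1) ^ r) (baseSet (E := E) r) := by
  classical
  have h1 : Comp (0 + (univ.image fun (e : E) (X : Finset E) => e ∈ X).card)
      (∅ ∪ ((univ.image fun (e : E) (X : Finset E) => e ∈ X : Finset (Finset E → Prop)) :
        Set (Finset E → Prop))) := by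
    refine Comp.empty.add _ ?_
    intro φ hφ
    obtain ⟨e, _, rfl⟩ := mem_image.1 hφ
    exact Or.inl ⟨e, fun X => Iff.rfl⟩
  have h2 := h1.add (((univ.filter fun t : Finset E × Finset E × Finset E =>
      (t.1 ∪ t.2.1 ∪ t.2.2).card ≤ r).image fun t (X : Finset E) => t.1 ⊆ X)) (by
    intro φ hφ
    obtain ⟨t, _, rfl⟩ := mem_image.1 hφ
    refine Or.inr (Or.inl ⟨{ψ | ∃ e ∈ t.1, ψ = fun X => e ∈ X}, ?_, fun X => ?_⟩)
    · rintro ψ ⟨e, _, rfl⟩
      right
      rw [coe_image]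
      exact ⟨e, by simp, rfl⟩
    · constructor
      · rintro h ψ ⟨e, he, rfl⟩
        exact h he
      · intro h e he
        exact h _ ⟨e, he, rfl⟩)
  refine (h2.subset ?_).le ?_
  · rintro φ (⟨e, rfl⟩ | ⟨T, hT, rfl⟩)
    · left
      right
      rw [coe_image]
      exact ⟨e, by simp, rfl⟩
    · right
      rw [coe_image]
      exact ⟨(T, ∅, ∅), by simpa using hT, rfl⟩
  · have e1 : (univ.image fun (e : E) (X : Finset E) => e ∈ X).card ≤ (8 * Fintype.card E + 1) ^ r := by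
      refine (card_image_le.trans (le_of_eq (card_univ))).trans ?_
      calc Fintype.card E ≤ (8 * Fintype.card E + 1) ^ 1 := by
            rw [pow_one]
            omega
        _ ≤ _ := Nat.pow_le_pow_right (by omega) hr
    have e2 := card_triples (E := E) r
    have e3 := card_image_le (s := univ.filter fun t : Finset E × Finset E × Finset E =>
      (t.1 ∪ t.2.1 ∪ t.2.2).card ≤ r) (f := fun t (X : Finset E) => t.1 ⊆ X)
    omega

/-- One gate. -/
theorem comp_gate {S r : ℕ} {𝓐 : Set (Finset E → Prop)} (h : Comp S 𝓐) (hbase : baseSet r ⊆ 𝓐)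
    {φ : Finset E → Prop} {W : Finset E} {m : ℕ} (hm : m ≤ r)
    (hφ : ∀ A B, Adm W m A B → Over 𝓐 fun X => φ (ov A B X)) :
    Comp (S + 3 * (8 * Fintype.card E + 1) ^ r)
      (𝓐 ∪ (resSet φ W m ∪ andSet φ W m ∪ orSet φ W m)) := by
  classical
  set Q := univ.filter fun t : Finset E × Finset E × Finset E => (t.1 ∪ t.2.1 ∪ t.2.2).card ≤ r
    with hQ
  set Q' := Q.filter fun t => Adm W m t.1 t.2.1 ∧ t.2.2 ⊆ t.1 ∪ t.2.1 with hQ'
  have hQc : Q'.card ≤ (8 * Fintype.card E + 1) ^ r :=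
    (card_le_card (filter_subset _ _)).trans (card_triples r)
  have hmem : ∀ A B T, Adm W m A B → T ⊆ A ∪ B → (A, B, T) ∈ Q' := by
    intro A B T h1 h2
    refine mem_filter.2 ⟨mem_filter.2 ⟨mem_univ _, ?_⟩, h1, h2⟩
    have : A ∪ B ∪ T = A ∪ B := union_eq_left.2 h2
    show (A ∪ B ∪ T).card ≤ r
    rw [this]
    exact h1.2.trans hm
  have h1 := h.add (Q'.image fun t (X : Finset E) => φ (ov t.1 t.2.1 X)) (by
    intro ψ hψ
    obtain ⟨t, ht, rfl⟩ := mem_image.1 hψ
    exact hφ _ _ (mem_filter.1 ht).2.1)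
  have hin : ∀ A B, Adm W m A B → (fun X => φ (ov A B X)) ∈
      (𝓐 ∪ ((Q'.image fun t (X : Finset E) => φ (ov t.1 t.2.1 X) :
        Finset (Finset E → Prop)) : Set (Finset E → Prop))) := by
    intro A B hAB
    right
    rw [coe_image]
    exact ⟨(A, B, ∅), mem_coe.2 (hmem A B ∅ hAB (empty_subset _)), rfl⟩
  have hlit : ∀ e : E, (fun X : Finset E => e ∈ X) ∈
      (𝓐 ∪ ((Q'.image fun t (X : Finset E) => φ (ov t.1 t.2.1 X) :
        Finset (Finset E → Prop)) : Set (Finset E → Prop))) := fun e =>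
    Or.inl (hbase (Or.inl ⟨e, rfl⟩))
  have h2 := h1.add ((Q'.image fun t (X : Finset E) => t.2.2 ⊆ X ∧ φ (ov t.1 t.2.1 X)) ∪
      (Q'.image fun t (X : Finset E) => (∃ e ∈ t.2.2, e ∈ X) ∨ φ (ov t.1 t.2.1 X))) (by
    intro ψ hψ
    rcases mem_union.1 hψ with hψ | hψ
    · obtain ⟨t, ht, rfl⟩ := mem_image.1 hψ
      refine Or.inr (Or.inl ⟨insert (fun X => φ (ov t.1 t.2.1 X))
        {ψ | ∃ e ∈ t.2.2, ψ = fun X => e ∈ X}, ?_, fun X => ?_⟩)
      · refine Set.insert_subset (hin _ _ (mem_filter.1 ht).2.1) ?_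
        rintro ψ ⟨e, _, rfl⟩
        exact hlit e
      · constructor
        · rintro ⟨g1, g2⟩ ψ (rfl | ⟨e, he, rfl⟩)
          · exact g2
          · exact g1 he
        · intro g
          exact ⟨fun e he => g _ (Or.inr ⟨e, he, rfl⟩), g _ (Or.inl rfl)⟩
    · obtain ⟨t, ht, rfl⟩ := mem_image.1 hψ
      refine Or.inr (Or.inr ⟨insert (fun X => φ (ov t.1 t.2.1 X))
        {ψ | ∃ e ∈ t.2.2, ψ = fun X => e ∈ X}, ?_, fun X => ?_⟩)
      · refine Set.insert_subset (hin _ _ (mem_filter.1 ht).2.1) ?_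
        rintro ψ ⟨e, _, rfl⟩
        exact hlit e
      · constructor
        · rintro (⟨e, he, g⟩ | g)
          · exact ⟨_, Or.inr ⟨e, he, rfl⟩, g⟩
          · exact ⟨_, Or.inl rfl, g⟩
        · rintro ⟨ψ, rfl | ⟨e, he, rfl⟩, g⟩
          · exact Or.inr g
          · exact Or.inl ⟨e, he, g⟩)
  refine (h2.subset ?_).le ?_
  · rintro ψ (hψ | ((⟨A, B, hAB, rfl⟩ | ⟨A, B, T, hAB, hT, rfl⟩) | ⟨A, B, T, hAB, hT, rfl⟩))
    · exact Or.inl (Or.inl hψ)
    · exact Or.inl (hin A B hAB)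
    · right
      rw [coe_union, coe_image]
      exact Or.inl ⟨(A, B, T), mem_coe.2 (hmem A B T hAB hT), rfl⟩
    · right
      rw [coe_union, coe_image, coe_image]
      exact Or.inr ⟨(A, B, T), mem_coe.2 (hmem A B T hAB hT), rfl⟩
  · have e1 := card_image_le (s := Q') (f := fun t (X : Finset E) => φ (ov t.1 t.2.1 X))
    have e2 := card_image_le (s := Q') (f := fun t (X : Finset E) => t.2.2 ⊆ X ∧ φ (ov t.1 t.2.1 X))
    have e3 := card_image_le (s := Q') (f := fun t (X : Finset E) =>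
      (∃ e ∈ t.2.2, e ∈ X) ∨ φ (ov t.1 t.2.1 X))
    have e4 := card_union_le (Q'.image fun t (X : Finset E) => t.2.2 ⊆ X ∧ φ (ov t.1 t.2.1 X))
      (Q'.image fun t (X : Finset E) => (∃ e ∈ t.2.2, e ∈ X) ∨ φ (ov t.1 t.2.1 X))
    omega

/-- **The simulation.** -/
theorem sim (ins : Fin s → Finset (Fin s)) (φ : Fin s → Finset E → Prop)
    (hlt : ∀ i, ∀ j ∈ ins i, j < i)
    (gate : ∀ i, (∃ e, ∀ X, φ i X ↔ e ∈ X) ∨ (∀ X, φ i X) ∨ (∀ X, ¬ φ i X) ∨
      (∀ X, φ i X ↔ ∀ j ∈ ins i, φ j X) ∨ (∀ X, φ i X ↔ ∃ j ∈ ins i, φ j X) ∨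
      (∃ j, ins i = {j} ∧ ∀ X, φ i X ↔ ¬ φ j X))
    (W : Fin s → Finset E) (lev : Fin s → ℕ)
    (hW : ∀ i, (W i).card ≤ p ∧ MonoOut (W i) (φ i) ∧ lev i ≤ q)
    (hlev : ∀ i, ∀ j ∈ ins i, lev j < lev i ∨ (lev j = lev i ∧ W j = W i))
    (out : Fin s) (hout : MonoOut ∅ (φ out)) (hp : 1 ≤ p) :
    Comp ((3 * s + 3) * (8 * Fintype.card E + 1) ^ (p * (q + 1))) {φ out} := by
  classical
  set r := p * (q + 1) with hr
  set M := (8 * Fintype.card E + 1) ^ r with hM
  have hr1 : 1 ≤ r := Nat.mul_pos hp (Nat.succ_pos q)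
  have hpr : p ≤ r := Nat.le_mul_of_pos_right p (Nat.succ_pos q)
  let mm : Fin s → ℕ := fun i => p * (q + 1 - lev i)
  have hmm : ∀ i, mm i ≤ r := fun i => Nat.mul_le_mul_left p (Nat.sub_le _ _)
  -- admissible restrictions of the inputs of a gate
  have hadm : ∀ i, ∀ j ∈ ins i, ∀ A B, Adm (W i) (mm i) A B → ∀ T, T ⊆ W j \ (A ∪ B) →
      Adm (W j) (mm j) (A ∪ T) (B ∪ ((W j \ (A ∪ B)) \ T)) := by
    intro i j hj A B hAB T hT
    have e1 : A ∪ T ∪ (B ∪ ((W j \ (A ∪ B)) \ T)) = (A ∪ B) ∪ (W j \ (A ∪ B)) := by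
      ext e
      simp only [mem_union, mem_sdiff]
      have := @hT e
      simp only [mem_union, mem_sdiff] at this
      tauto
    refine ⟨?_, ?_⟩
    · rw [e1]
      intro e he
      simp only [mem_union, mem_sdiff]
      tauto
    · rw [e1]
      rcases hlev i j hj with h1 | ⟨h1, h2⟩
      · refine (card_union_le _ _).trans ?_
        have h3 : (W j \ (A ∪ B)).card ≤ p := (card_le_card sdiff_subset).trans (hW j).1
        have h4 : (A ∪ B).card ≤ p * (q + 1 - lev i) := hAB.2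
        have h5 : lev i ≤ q := (hW i).2.2
        have h6 : q + 1 - lev i + 1 ≤ q + 1 - lev j := by omega
        calc (A ∪ B).card + (W j \ (A ∪ B)).card ≤ p * (q + 1 - lev i) + p := by omega
          _ = p * (q + 1 - lev i + 1) := by ring
          _ ≤ p * (q + 1 - lev j) := Nat.mul_le_mul_left p h6
      · have h3 : W j \ (A ∪ B) = ∅ := by
          rw [h2]
          exact sdiff_eq_empty_iff_subset.2 hAB.1
        rw [h3, union_empty]
        show _ ≤ p * (q + 1 - lev j)
        rw [h1]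
        exact hAB.2
  have hdis : ∀ (A B : Finset E) j, Disjoint (W j \ (A ∪ B)) (A ∪ B) := fun A B j =>
    sdiff_disjoint
  have main : ∀ i ≤ s, Comp (2 * M + 3 * i * M) (baseSet r ∪ {ψ | ∃ j : Fin s, j.1 < i ∧
      ψ ∈ resSet (φ j) (W j) (mm j) ∪ andSet (φ j) (W j) (mm j) ∪ orSet (φ j) (W j) (mm j)}) := by
    intro i
    induction i with
    | zero =>
      intro _
      refine ((comp_base (E := E) hr1).le (by omega)).subset ?_
      rintro ψ (h | ⟨j, hj, _⟩)
      · exact h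
      · omega
    | succ i ih =>
      intro hi
      set 𝓐 : Set (Finset E → Prop) := baseSet r ∪ {ψ | ∃ j : Fin s, j.1 < i ∧
        ψ ∈ resSet (φ j) (W j) (mm j) ∪ andSet (φ j) (W j) (mm j) ∪ orSet (φ j) (W j) (mm j)}
        with h𝓐
      have h0 : Comp (2 * M + 3 * i * M) 𝓐 := ih (by omega)
      set i' : Fin s := ⟨i, hi⟩ with hi'
      have h1 := comp_gate h0 (r := r) Set.subset_union_left (φ := φ i') (W := W i')
        (m := mm i') (hmm i') (by
        intro A B hAB
        have hmono := (hW i').2.1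
        rcases gate i' with ⟨e, he⟩ | he | he | he | he | ⟨j, hj, he⟩
        · by_cases h1 : e ∈ B
          · refine Or.inr (Or.inr ⟨∅, by simp, fun X => ?_⟩)
            show φ i' (ov A B X) ↔ _
            rw [he, mem_ov]
            simp [h1]
          · by_cases h2 : e ∈ A
            · refine Or.inr (Or.inl ⟨∅, by simp, fun X => ?_⟩)
              show φ i' (ov A B X) ↔ _
              rw [he, mem_ov]
              simp [h1, h2]
            · refine Or.inl ⟨e, fun X => ?_⟩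
              show φ i' (ov A B X) ↔ _
              rw [he, mem_ov]
              simp [h1, h2]
        · refine Or.inr (Or.inl ⟨∅, by simp, fun X => ?_⟩)
          simp [he]
        · refine Or.inr (Or.inr ⟨∅, by simp, fun X => ?_⟩)
          simp [he]
        · refine Or.inr (Or.inl ⟨{ψ | ∃ j ∈ ins i', ∃ T, T ⊆ W j \ (A ∪ B) ∧
            ψ = fun X => (∃ e ∈ (W j \ (A ∪ B)) \ T, e ∈ X) ∨
              φ j (ov (A ∪ T) (B ∪ ((W j \ (A ∪ B)) \ T)) X)}, ?_, fun X => ?_⟩)
          · rintro ψ ⟨j, hj, T, hT, rfl⟩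
            refine Or.inr ⟨j, hlt i' j hj, Or.inr ⟨_, _, _, hadm i' j hj A B hAB T hT, ?_, rfl⟩⟩
            exact subset_union_right.trans subset_union_right
          · show φ i' (ov A B X) ↔ _
            rw [and_id (ι := Fin s) (ins i' : Set (Fin s)) (ψ := φ) (fun X => by
              rw [he]; exact Iff.rfl) hmono hAB.1 (fun j => W j \ (A ∪ B))
              (fun j _ => hdis A B j) X]
            constructor
            · rintro h ψ ⟨j, hj, T, hT, rfl⟩
              exact h j hj T hT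
            · intro h j hj T hT
              exact h _ ⟨j, hj, T, hT, rfl⟩
        · refine Or.inr (Or.inr ⟨{ψ | ∃ j ∈ ins i', ∃ T, T ⊆ W j \ (A ∪ B) ∧
            ψ = fun X => T ⊆ X ∧
              φ j (ov (A ∪ T) (B ∪ ((W j \ (A ∪ B)) \ T)) X)}, ?_, fun X => ?_⟩)
          · rintro ψ ⟨j, hj, T, hT, rfl⟩
            refine Or.inr ⟨j, hlt i' j hj, Or.inl (Or.inr ⟨_, _, _,
              hadm i' j hj A B hAB T hT, ?_, rfl⟩)⟩
            exact subset_union_right.trans subset_union_left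
          · show φ i' (ov A B X) ↔ _
            rw [or_id (ι := Fin s) (ins i' : Set (Fin s)) (ψ := φ) (fun X => by
              rw [he]; exact Iff.rfl) hmono hAB.1 (fun j => W j \ (A ∪ B))
              (fun j _ => hdis A B j) X]
            constructor
            · rintro ⟨j, hj, T, hT, hTX, h⟩
              exact ⟨_, ⟨j, hj, T, hT, rfl⟩, hTX, h⟩
            · rintro ⟨ψ, ⟨j, hj, T, hT, rfl⟩, hTX, h⟩
              exact ⟨j, hj, T, hT, hTX, h⟩
        · have hji : j ∈ ins i' := by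
            rw [hj]
            exact mem_singleton_self j
          refine Or.inr (Or.inr ⟨{ψ | ∃ T, T ⊆ W j \ (A ∪ B) ∧
            φ i' (ov (A ∪ T) (B ∪ ((W j \ (A ∪ B)) \ T)) ∅) ∧ ψ = fun X => T ⊆ X},
            ?_, fun X => ?_⟩)
          · rintro ψ ⟨T, hT, _, rfl⟩
            refine Or.inl (Or.inr ⟨T, ?_, rfl⟩)
            exact ((card_le_card (hT.trans sdiff_subset)).trans (hW j).1).trans hpr
          · show φ i' (ov A B X) ↔ _
            rw [not_id he hmono (hW j).2.1 hAB.1 (R := W j \ (A ∪ B)) (by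
              intro e he
              simp only [mem_union, mem_sdiff]
              tauto) (hdis A B j) X]
            constructor
            · rintro ⟨T, hT, hTX, h⟩
              exact ⟨_, ⟨T, hT, h, rfl⟩, hTX⟩
            · rintro ⟨ψ, ⟨T, hT, h, rfl⟩, hTX⟩
              exact ⟨T, hT, hTX, h⟩)
      refine (h1.subset ?_).le (le_of_eq ?_)
      · rintro ψ (hψ | ⟨j, hj, hψ⟩)
        · exact Or.inl (Or.inl hψ)
        · rcases Nat.lt_succ_iff_lt_or_eq.1 hj with hj | hj
          · exact Or.inl (Or.inr ⟨j, hj, hψ⟩)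
          · have : j = i' := Fin.ext hj
            rw [this] at hψ
            exact Or.inr hψ
      · ring
  have h1 := main s le_rfl
  have h2 := h1.add_one (φ := φ out) (by
    refine Or.inr (Or.inr ⟨{ψ | ∃ T, T ⊆ W out ∧
      ψ = fun X => T ⊆ X ∧ φ out (ov (∅ ∪ T) (∅ ∪ (W out \ T)) X)}, ?_, fun X => ?_⟩)
    · rintro ψ ⟨T, hT, rfl⟩
      refine Or.inr ⟨out, out.2, Or.inl (Or.inr ⟨_, _, _, ⟨?_, ?_⟩, ?_, rfl⟩)⟩
      · intro e he
        simp only [mem_union, mem_sdiff]
        tauto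
      · have e1 : ∅ ∪ T ∪ (∅ ∪ (W out \ T)) = W out := by
          ext e
          simp only [mem_union, mem_sdiff, notMem_empty]
          have := @hT e
          tauto
        rw [e1]
        refine (hW out).1.trans ?_
        have h3 : lev out ≤ q := (hW out).2.2
        exact Nat.le_mul_of_pos_right p (by omega)
      · exact subset_union_right.trans subset_union_left
    · have h3 : φ out X ↔ φ out (ov ∅ ∅ X) := by
        have : ov ∅ ∅ X = X := by
          ext e
          rw [mem_ov]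
          simp
        rw [this]
      rw [h3, or_id (ι := Unit) Set.univ (ψ := fun _ => φ out) (fun X => by simp) hout
        (empty_subset _) (fun _ => W out) (fun _ _ => by simp) X]
      constructor
      · rintro ⟨_, _, T, hT, hTX, h⟩
        exact ⟨_, ⟨T, hT, rfl⟩, hTX, h⟩
      · rintro ⟨ψ, ⟨T, hT, rfl⟩, hTX, h⟩
        exact ⟨(), trivial, T, hT, hTX, h⟩)
  refine (h2.subset ?_).le ?_
  · rintro ψ rfl
    exact Or.inl rfl
  · have hM1 : 1 ≤ M := Nat.one_le_iff_ne_zero.2 (by positivity)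
    calc 2 * M + 3 * s * M + 1 ≤ 2 * M + 3 * s * M + M := by omega
      _ = (3 * s + 3) * M := by ring

end

end Pool.Agent.H9.AM
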