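import Pool.Agent.H9.AM.Lines

/-!
# Counting edges, thresholds, slice functions
-/

namespace Pool.Agent.H9.AM

open Finset

section

variable {n : ℕ}

/-- The pairs of distinct vertices. -/
def pairs (n : ℕ) : Finset (Sym2 (Fin n)) := univ.filter fun e => ¬ e.IsDiag

theorem card_pairs (n : ℕ) : (pairs n).card = n.choose 2 := by
  have h := Sym2.card_subtype_not_diag (α := Fin n)
  rw [Fintype.card_fin] at h
  rw [← h, Fintype.card_subtype, pairs]

open Classical in
/-- The number of edges of `G` in `S`. -/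
noncomputable def cnt (S : Finset (Sym2 (Fin n))) (G : SimpleGraph (Fin n)) : ℕ :=
  (S.filter fun e => e ∈ G.edgeSet).card

theorem cnt_le (S : Finset (Sym2 (Fin n))) (G : SimpleGraph (Fin n)) : cnt S G ≤ S.card := by
  classical
  unfold cnt
  exact card_filter_le _ _

theorem cnt_empty (G : SimpleGraph (Fin n)) : cnt ∅ G = 0 := by
  classical
  unfold cnt
  simp

theorem cnt_insert {S : Finset (Sym2 (Fin n))} {e : Sym2 (Fin n)} (he : e ∉ S)
    (G : SimpleGraph (Fin n)) [Decidable (e ∈ G.edgeSet)] :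
    cnt (insert e S) G = cnt S G + if e ∈ G.edgeSet then 1 else 0 := by
  classical
  unfold cnt
  rw [filter_insert]
  by_cases h : e ∈ G.edgeSet
  · simp only [h, if_true]
    rw [card_insert_of_notMem]
    intro h'
    exact he (mem_filter.1 h').1
  · simp only [h, if_false, add_zero]

theorem cnt_union {S T : Finset (Sym2 (Fin n))} (h : Disjoint S T) (G : SimpleGraph (Fin n)) :
    cnt (S ∪ T) G = cnt S G + cnt T G := by
  classical
  unfold cnt
  rw [filter_union, card_union_of_disjoint]
  exact disjoint_filter_filter h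

theorem cnt_mono {S : Finset (Sym2 (Fin n))} {G H : SimpleGraph (Fin n)} (h : G ≤ H) :
    cnt S G ≤ cnt S H := by
  classical
  unfold cnt
  refine card_le_card fun e he => ?_
  rw [mem_filter] at he ⊢
  exact ⟨he.1, SimpleGraph.edgeSet_mono h he.2⟩

theorem cnt_congr {S : Finset (Sym2 (Fin n))} {G H : SimpleGraph (Fin n)}
    (h : ∀ e ∈ S, e ∈ G.edgeSet ↔ e ∈ H.edgeSet) : cnt S G = cnt S H := by
  classical
  unfold cnt
  congr 1
  exact filter_congr h

/-- Equal numbers of edges and inclusion imply equality. -/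
theorem eq_of_cnt_le {G H : SimpleGraph (Fin n)} (h : G ≤ H) (hc : cnt (pairs n) H ≤ cnt (pairs n) G) :
    G = H := by
  classical
  unfold cnt at hc
  have h1 : ((pairs n).filter fun e => e ∈ G.edgeSet) = (pairs n).filter fun e => e ∈ H.edgeSet := by
    refine eq_of_subset_of_card_le (fun e he => ?_) hc
    rw [mem_filter] at he ⊢
    exact ⟨he.1, SimpleGraph.edgeSet_mono h he.2⟩
  refine le_antisymm h fun u v huv => ?_
  have h2 : s(u, v) ∈ (pairs n).filter fun e => e ∈ H.edgeSet := by
    rw [mem_filter]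
    exact ⟨mem_filter.2 ⟨mem_univ _, by rw [Sym2.mk_isDiag_iff]; exact huv.ne⟩, huv⟩
  rw [← h1] at h2
  exact (mem_filter.1 h2).2

/-- The line of an edge test. -/
def litL (e : Sym2 (Fin n)) : Line n := ⟨fun G => e ∈ G.edgeSet, ∅, 0⟩

/-- The line of a threshold test. -/
noncomputable def thL (S : Finset (Sym2 (Fin n))) (a : ℕ) : Line n := ⟨fun G => a ≤ cnt S G, ∅, 0⟩

/-- The slice function of `P` for graphs with `b` edges. -/
def hatF (P : SimpleGraph (Fin n) → Prop) (b : ℕ) (G : SimpleGraph (Fin n)) : Prop :=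
  b < cnt (pairs n) G ∨ (cnt (pairs n) G = b ∧ P G)

end

end Pool.Agent.H9.AM
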